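import Pool.Agent.H71.AR.AJDefs

/-!
# The p-adic étale Abel–Jacobi map and line arrangements
-/

set_option autoImplicit false

open CategoryTheory CategoryTheory.Limits AlgebraicGeometry

namespace Pool.Agent.H71.AR

open Pool.Agent.Y116.UV Pool.Agent.Y101.Th Pool.Agent.Z125.UN Pool.Agent.Y691.TU

universe v u w

variable {M : Type u} [Category.{v} M] [Preadditive M] [HasZeroObject M] [HasBinaryBiproducts M]
  {W : Sch ℚ → CochainComplex M ℤ} {T : AJData.{v, u, w} ℚ M}

/-- **The Abel–Jacobi map and line arrangements.** -/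
theorem aj_dim (hD : IsWeight (WeightData.mk T.h W)) (p : Nat.Primes) (n : ℤ) (d : ℕ) :
    (∀ A : M, IsPart T n d A → InjectiveFor T p A) ↔ AllExact T W p n d := by
  unfold AllExact
  rw [← wt_dim hD (T.tw n ⋙ kernel (T.AJ p)) isFrac_rat d]
  constructor
  · intro h Y hY hd
    exact (isZero_kernel (T.AJ p) _).mpr (h _ ⟨Y, hY, hd, 𝟙 _, 𝟙 _, Category.comp_id _⟩)
  · rintro h A ⟨X, hX, hd, s, r, hsr⟩
    exact mono_retract (T.AJ p) s r hsr ((isZero_kernel (T.AJ p) _).mp (h X hX hd))

end Pool.Agent.H71.AR
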