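import Pool.Agent.H71.AR.BBDefs

/-!
# The complex Abel–Jacobi map over the rational numbers and line arrangements
-/

set_option autoImplicit false

open CategoryTheory CategoryTheory.Limits AlgebraicGeometry

namespace Pool.Agent.H71.AR

open Pool.Agent.Y116.UV Pool.Agent.Y101.Th Pool.Agent.Z125.UN Pool.Agent.Y691.TU

universe v u

attribute [local instance] MvPolynomial.gradedAlgebra

lemma isProper_prS (k : Type) [Field k] (N : ℕ) : IsProper (prS k N) := by
  have h1 : Function.Bijective
      (algebraMap k (MvPolynomial.homogeneousSubmodule (Fin (N + 1)) k 0)) := by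
    constructor
    · intro a b h
      have h2 : (MvPolynomial.C a : MvPolynomial (Fin (N+1)) k) = MvPolynomial.C b := congrArg Subtype.val h
      exact MvPolynomial.C_injective _ _ h2
    · rintro ⟨x, hx⟩
      rw [MvPolynomial.mem_homogeneousSubmodule] at hx
      have h2 := (MvPolynomial.totalDegree_zero_iff_isHomogeneous _).mpr hx
      exact ⟨_, Subtype.ext (MvPolynomial.totalDegree_eq_zero_iff_eq_C.mp h2).symm⟩
  have h2 : IsIso (CommRingCat.ofHom
      (algebraMap k (MvPolynomial.homogeneousSubmodule (Fin (N + 1)) k 0))) :=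
    (ConcreteCategory.isIso_iff_bijective _).mpr h1
  have h3 : Algebra.FiniteType (MvPolynomial.homogeneousSubmodule (Fin (N + 1)) k 0)
      (MvPolynomial (Fin (N + 1)) k) := by
    have : IsScalarTower k (MvPolynomial.homogeneousSubmodule (Fin (N + 1)) k 0) (MvPolynomial (Fin (N + 1)) k) := ⟨fun a b c => by
        change (a • (b : MvPolynomial (Fin (N + 1)) k)) * c = a • ((b : MvPolynomial (Fin (N + 1)) k) * c)
        exact smul_mul_assoc _ _ _⟩
    exact Algebra.FiniteType.of_restrictScalars_finiteType k _ _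
  unfold prS
  infer_instance

lemma smProper_of_smProj {Y : Sch ℚ} (hY : SmProj Y) : SmProper Y := by
  refine ⟨hY.smooth, ?_⟩
  obtain ⟨N, i, hi, h⟩ := hY.projective
  have := isProper_prS ℚ N
  rw [← h]
  infer_instance

variable {M : Type u} [Category.{v} M] [Preadditive M] {T : BBData M}

lemma mono_iff_torsion (hT : IsBB T) (i : ℕ) {X : Sch ℚ} (hX : SmProper X) :
    Mono ((T.AJ i).app (T.h X)) ↔ KernelTorsion T i X := by
  obtain ⟨f, g, hf, hg, w⟩ := hT.rational i X hX
  have hw : ∀ z : T.CHZ i X, (T.AJ i).app (T.h X) (f z) = g (T.AJZ i X z) := fun z =>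
    congrArg (fun φ => (ConcreteCategory.hom φ) z) w
  rw [ModuleCat.mono_iff_injective, injective_iff_map_eq_zero]
  constructor
  · intro h z hz
    refine hf.ker z (h _ ?_)
    rw [hw, hz]
    exact map_zero _
  · intro h v hv
    obtain ⟨n, z, hn, hz⟩ := hf.im v
    have h1 : g (T.AJZ i X z) = 0 := by
      rw [← hw, hz]
      change (T.AJ i).app (T.h X) (n • v) = 0
      rw [map_nsmul, hv, smul_zero]
    obtain ⟨m, hm, h2⟩ := hg.ker _ h1
    obtain ⟨k, hk, h3⟩ := h (m • z) (by rw [map_nsmul, h2])
    have h4 : (k * m * n) • v = 0 := by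
      have h5 : f (k • m • z) = (k * m * n) • v := by
        rw [map_nsmul, map_nsmul, hz, mul_smul, mul_smul]
      rw [← h5, h3]
      exact map_zero _
    have h6 : ((k * m * n : ℕ) : ℚ) • (v : (T.CH i).obj (T.h X)) = 0 := by
      rw [Nat.cast_smul_eq_nsmul]
      exact h4
    rcases smul_eq_zero.mp h6 with h7 | h7
    · exfalso
      have : k * m * n ≠ 0 := by positivity
      exact this (by exact_mod_cast h7)
    · exact h7

variable [HasZeroObject M] [HasBinaryBiproducts M] {W : Sch ℚ → CochainComplex M ℤ}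

/-- **The Abel–Jacobi map over `ℚ` and line arrangements.** -/
theorem bb_dim (hT : IsBB T) (hD : IsWeight (WeightData.mk T.h W)) (i d : ℕ) :
    (∀ X : Sch ℚ, SmProper X → topologicalKrullDim X.left ≤ d → KernelTorsion T i X) ↔
      ∀ (N : Type) [CommRing N] [IsDomain N] [Algebra ℚ N] [Algebra.Smooth ℚ N], ArrAlg ℚ N →
        ringKrullDim N ≤ d → ∀ j : ℤ,
          IsZero (wtH (WeightData.mk T.h W) (kernel (T.AJ i)) j (aff ℚ N)) := by
  rw [← wt_dim hD (kernel (T.AJ i)) isFrac_rat d]
  constructor
  · intro h Y hY hd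
    exact (isZero_kernel (T.AJ i) _).mpr ((mono_iff_torsion hT i (smProper_of_smProj hY)).mpr
      (h Y (smProper_of_smProj hY) hd))
  · intro h X hX hd
    rw [← mono_iff_torsion hT i hX]
    obtain ⟨Y, hY, hYd, s, r, hsr⟩ := hT.proper X hX
    exact mono_retract (T.AJ i) s r hsr ((isZero_kernel (T.AJ i) _).mp (h Y hY (hYd.trans hd)))

end Pool.Agent.H71.AR
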