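import Pool.Agent.H71.AR.Opn
import Pool.Agent.H71.AR.Dev

set_option autoImplicit false

/-!
# Moduli spaces of line arrangements and all schemes of finite type
-/

open CategoryTheory AlgebraicGeometry MvPolynomial Pool.Agent.Y116.UV Pool.Agent.W5h77.MR

namespace Pool.Agent.H71.AR

open Pool.Agent.Z125.UN

/-- Localisations of localisations of domains. -/
lemma away_away {k A : Type} [CommRing k] [CommRing A] [IsDomain A] [Algebra k A] {x : A}
    (hx : x ≠ 0) {y : Localization.Away x} (hy : y ≠ 0) :
    ∃ w : A, w ≠ 0 ∧ Nonempty (Localization.Away w ≃ₐ[k] Localization.Away y) := by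
  have ha : Associated (algebraMap A (Localization.Away x) (IsLocalization.Away.sec x y).1) y :=
    IsLocalization.Away.associated_sec_fst x y
  have hl : IsLocalization.Away (x * (IsLocalization.Away.sec x y).1) (Localization.Away y) :=
    IsLocalization.Away.mul_of_associated x _ y ha
  refine ⟨x * (IsLocalization.Away.sec x y).1, mul_ne_zero hx ?_,
    ⟨(IsLocalization.algEquiv (Submonoid.powers (x * (IsLocalization.Away.sec x y).1))
      (Localization.Away (x * (IsLocalization.Away.sec x y).1))
      (Localization.Away y)).restrictScalars k⟩⟩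
  intro h0
  rw [h0, map_zero] at ha
  exact hy ((associated_zero_iff_eq_zero y).mp ha.symm)

/-- **Universality.** Every integral affine scheme of finite type over a perfect field of fractions of
integers has a non-empty open subscheme which is smooth and isomorphic to a moduli space of line
arrangements. -/
theorem exists_nice {k : Type} [Field k] [PerfectField k] (hf : IsFrac k) (B : Type) [CommRing B]
    [IsDomain B] [Algebra k B] [Algebra.FiniteType k B] :
    ∃ w : B, w ≠ 0 ∧ Algebra.Smooth k (Localization.Away w) ∧ ArrAlg k (Localization.Away w) := by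
  obtain ⟨x, hx, hs⟩ := exists_smooth (k := k) B
  have hd : IsDomain (Localization.Away x) := IsLocalization.Away.isDomain _ hx
  obtain ⟨y, hy, hA⟩ := exists_open hf (Localization.Away x)
  have hs' : Algebra.Smooth k (Localization.Away y) := by
    have h1 : Algebra.Smooth (Localization.Away x) (Localization.Away y) :=
      Algebra.Smooth.of_isLocalization_Away y
    exact Algebra.Smooth.comp k (Localization.Away x) (Localization.Away y)
  obtain ⟨w, hw, ⟨e⟩⟩ := away_away (k := k) hx hy
  exact ⟨w, hw, Algebra.Smooth.of_equiv e.symm, hA.equiv e.symm⟩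

section

variable {k : Type} [Field k] {sep : Prop} {P : Sch k → Prop}

/-- Schemes of dimension less than `d` and smooth integral moduli spaces of line arrangements of
dimension less than `d`. -/
theorem all_of_arr [PerfectField k] (hf : IsFrac k) (hP : Dev sep P) {d : WithBot ℕ∞} (hd : 0 < d)
    (h : ∀ (N : Type) [CommRing N] [IsDomain N] [Algebra k N] [Algebra.Smooth k N], ArrAlg k N →
      ringKrullDim N < d → P (aff k N)) (X : Sch k) (hX : FT sep X)
    (hn : topologicalKrullDim X.left < d) : P X := by
  have key : ∀ (B : Type) [CommRing B] [IsDomain B] [Algebra k B] [Algebra.FiniteType k B],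
      ringKrullDim B < d → ∃ w : B, w ≠ 0 ∧ P (aff k (Localization.Away w)) := by
    intro B _ _ _ _ hB
    obtain ⟨w, hw, hs, hA⟩ := exists_nice hf B
    have hd : IsDomain (Localization.Away w) := IsLocalization.Away.isDomain _ hw
    exact ⟨w, hw, h _ hA ((dim_away w).trans_lt hB)⟩
  have h0 : ∀ (B : Type) [CommRing B] [Algebra k B], Subsingleton B → P (aff k B) := by
    have h3 : ringKrullDim k < d := by
      rw [ringKrullDim_eq_zero_of_field]
      exact hd
    obtain ⟨w, _, h4⟩ := key k h3
    exact dev_empty hP h4
  refine dev_affine_lt hP ?_ X hX hn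
  intro A _ _ _ hA
  exact dev_noeth hP h0 fun p hp => key (A ⧸ p) ((ringKrullDim_quotient_le p).trans_lt hA)

end

end Pool.Agent.H71.AR
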