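import Pool.Agent.H71.AR.LefDefs
import Pool.Agent.H71.AR.Eng
import Pool.Graph.R_pool_sql_team_seeded_1acbe0a2.Y691.TU.Main

set_option autoImplicit false

/-!
# The middle cohomology of moduli spaces of line arrangements
-/

open CategoryTheory CategoryTheory.Limits AlgebraicGeometry

namespace Pool.Agent.H71.AR

open Pool.Agent.Y116.UV Pool.Agent.Y101.Th Pool.Agent.Y691.TU Pool.Agent.Z125.UN

universe v u

lemma exists_dim {k : Type} [Field k] (A : Type) [CommRing A] [Algebra k A]
    [Algebra.FiniteType k A] : ∃ N : ℕ, ringKrullDim A < N := by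
  obtain ⟨n, π, hπ⟩ := Algebra.FiniteType.iff_quotient_mvPolynomial''.mp
    (inferInstance : Algebra.FiniteType k A)
  refine ⟨n + 1, (lt_succ_iff _ _).mpr ?_⟩
  refine (ringKrullDim_le_of_surjective π.toRingHom hπ).trans ?_
  rw [MvPolynomial.ringKrullDim_of_isNoetherianRing, ringKrullDim_eq_zero_of_field, zero_add]
  simp

variable {k : Type} [Field k] {C : Type u} [Category.{v} C] [Abelian C] {D : Graded k C}
  {Q : ℤ → C → Prop}

/-- The pure part of the cohomology with compact supports of degree `i`. -/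
theorem dev_mid (hC : Semisimple C) (hD : IsCoh D) (hQ : Stable D Q) (i : ℤ) :
    Dev True (fun X => Q i (D.H X i i)) := by
  refine ⟨?_, ?_, ?_⟩
  · intro X Y hX h hP
    exact (hQ.iso (hD.iso hX h i i)).mp hP
  · intro Z X U _ _ hX ht hZ hU
    obtain ⟨a, b, d, h⟩ := hD.localization _ _ hX ht i
    exact mid hC (hQ.sum i) (hQ.summand i) (h i).1 hU hZ
  · intro Z X U z u hX ht hZ hXX
    obtain ⟨j, rfl⟩ : ∃ j, i = j + 1 := ⟨i - 1, by ring⟩
    obtain ⟨a, b, d, h⟩ := hD.localization _ _ hX ht (j + 1)
    have h2 : Q (j + 1) (D.H Z (j + 1) j) := hQ.zero _ _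
      (hD.weights Z (ft_closed z ht.closed hX) (j + 1) j (by omega))
    exact mid hC (hQ.sum _) (hQ.summand _) (h j).2.2 h2 hXX

/-- smooth projective schemes are sufficient -/
lemma of_compact (hD : IsCoh D) (hQ : Stable D Q) {d : WithBot ℕ∞}
    (h : ∀ X : Sch k, SmProj X → topologicalKrullDim X.left < d → ∀ i : ℤ, Q i (D.H X i i))
    (X : Sch k) (hX : FT True X) (hd : topologicalKrullDim X.left < d) (i : ℤ) :
    Q i (D.H X i i) := by
  obtain ⟨Y, hY, hY', s, r, hs⟩ := hD.compact X hX i
  exact hQ.summand i _ _ s r hs (h Y hY (hY'.trans_lt hd) i)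

/-- The middle cohomology of the smooth integral moduli spaces of line arrangements of dimension
less than `n` determines the cohomology of the schemes of dimension less than `n`. -/
theorem all_of_mid [PerfectField k] (hf : IsFrac k) (hC : Semisimple C)
    (hD : IsCoh D) (hQ : Stable D Q) (n : ℕ)
    (h : ∀ (N : Type) [CommRing N] [IsDomain N] [Algebra k N] [Algebra.Smooth k N], ArrAlg k N →
      ∀ m : ℕ, m < n → ringKrullDim N = m → Q m (D.H (aff k N) m m)) :
    ∀ X : Sch k, FT True X → topologicalKrullDim X.left < n → ∀ i : ℤ, Q i (D.H X i i) := by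
  induction n with
  | zero =>
    intro X hX hd i
    refine dev_affine_lt (dev_mid hC hD hQ i) (d := ((0 : ℕ) : WithBot ℕ∞)) ?_ X hX hd
    intro A _ _ _ hA
    refine hQ.zero _ _ (hD.empty _ ?_ _ _)
    have hA' : Subsingleton A := by
      rw [← not_nontrivial_iff_subsingleton]
      intro hA'
      have := ringKrullDim_nonneg_of_nontrivial (R := A)
      exact absurd hA (not_lt.mpr (by exact_mod_cast this))
    exact inferInstanceAs (IsEmpty (PrimeSpectrum A))
  | succ n ih =>
    have ih' := ih fun N _ _ _ _ hN m hm => h N hN m (by omega)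
    -- the middle degree
    have hA : ∀ X : Sch k, FT True X → topologicalKrullDim X.left < (n + 1 : ℕ) →
        Q n (D.H X n n) := by
      refine all_of_arr hf (dev_mid hC hD hQ n) ?_ ?_
      · exact_mod_cast Nat.succ_pos n
      · intro N _ _ _ _ hN hd
        rcases lt_or_eq_of_le ((lt_succ_iff _ _).mp hd) with h1 | h1
        · exact ih' _ (ft_aff True) (by rw [topDim_aff]; exact h1) n
        · exact h N hN n (by omega) h1
    -- smooth projective schemes
    have hB : ∀ X : Sch k, SmProj X → topologicalKrullDim X.left < (n + 1 : ℕ) →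
        ∀ j : ℕ, ∀ i : ℤ, i ≤ n + j → Q i (D.H X i i) := by
      intro X hX hd j
      induction j using Nat.strong_induction_on with
      | _ j ihj =>
      intro i hi
      rcases lt_trichotomy i n with h1 | h1 | h1
      · obtain ⟨Y, hY, hd', s, r, hs⟩ := hD.weak X n hX ((lt_succ_iff _ _).mp hd) i h1
        exact hQ.summand i _ _ s r hs (ih' Y hY.ft hd' i)
      · rw [h1]
        exact hA X hX.ft hd
      · obtain ⟨s, r, hs⟩ := hD.hard X n hX ((lt_succ_iff _ _).mp hd) i h1
        have h2 : Q (i - 2) (D.H X (i - 2) (i - 2)) := ihj (j - 1) (by omega) (i - 2) (by omega)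
        have h3 := (hQ.twist (i - 2) _).mpr h2
        rw [show i - 2 + 2 = i by ring] at h3
        exact hQ.summand i _ _ s r hs h3
    refine of_compact hD hQ ?_
    intro X hX hd i
    exact hB X hX hd (i - n).toNat i (by omega)

/-- Dimension by dimension. -/
theorem mid_dim [PerfectField k] (hf : IsFrac k) (hC : Semisimple C)
    (hD : IsCoh D) (hQ : Stable D Q) (n : ℕ) :
    (∀ X : Sch k, SmProj X → topologicalKrullDim X.left ≤ n → ∀ i, Q i (D.H X i i)) ↔
      ∀ (N : Type) [CommRing N] [IsDomain N] [Algebra k N] [Algebra.Smooth k N], ArrAlg k N →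
        ∀ m : ℕ, m ≤ n → ringKrullDim N = m → Q m (D.H (aff k N) m m) := by
  constructor
  · intro h N _ _ _ _ _ m hm hd
    refine of_compact hD hQ (d := ((n + 1 : ℕ) : WithBot ℕ∞)) ?_ (aff k N) (ft_aff True) ?_ m
    · intro X hX hX'
      exact h X hX ((lt_succ_iff _ _).mp hX')
    · rw [topDim_aff, hd]
      exact_mod_cast Nat.lt_succ_of_le hm
  · intro h X hX hd
    exact all_of_mid hf hC hD hQ (n + 1)
      (fun N _ _ _ _ hN m hm => h N hN m (by omega)) X hX.ft ((lt_succ_iff _ _).mpr hd)

/-- All dimensions. -/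
theorem mid_all [PerfectField k] (hf : IsFrac k) (hC : Semisimple C)
    (hD : IsCoh D) (hQ : Stable D Q) :
    (∀ X : Sch k, SmProj X → ∀ i, Q i (D.H X i i)) ↔
      ∀ (N : Type) [CommRing N] [IsDomain N] [Algebra k N] [Algebra.Smooth k N], ArrAlg k N →
        ∀ m : ℕ, ringKrullDim N = m → Q m (D.H (aff k N) m m) := by
  constructor
  · intro h N _ _ _ _ hN m hd
    exact (mid_dim hf hC hD hQ m).mp (fun X hX _ => h X hX) N hN m le_rfl hd
  · intro h X hX i
    refine of_affine' (P := fun X => Q i (D.H X i i)) (sep := True) (dev_mid hC hD hQ i).iso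
      (dev_mid hC hD hQ i).total ?_ X hX.ft
    intro A _ _ _
    obtain ⟨n, hn⟩ := exists_dim (k := k) A
    exact all_of_mid hf hC hD hQ n (fun N _ _ _ _ hN m _ => h N hN m) (aff k A)
      (ft_aff True) (by rw [topDim_aff]; exact hn) i

end Pool.Agent.H71.AR
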