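import Pool.Agent.H71.AR.Lef
import Pool.Graph.R_pool_sql_team_seeded_1acbe0a2.Y691.TU.Odd
import Pool.Graph.R_pool_sql_team_seeded_1acbe0a2.Y691.TU.Ev

set_option autoImplicit false

/-!
# Deligne's conjecture in odd weight and the middle cohomology of moduli spaces of line arrangements
-/

open CategoryTheory CategoryTheory.Limits AlgebraicGeometry TensorProduct

namespace Pool.Agent.H71.AR

open Pool.Agent.Y116.UV Pool.Agent.Y101.Th Pool.Agent.Y691.TU Pool.Agent.Z125.UN

universe v u

/-- Known property: the cohomology of degree `i` of a smooth projective scheme is a motive of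
weight `i`, i.e. its Hodge numbers `h^(p, q)` vanish for `p + q ≠ i`. -/
def IsPure {k : Type} [Field k] {F : Type} [Field F] [Algebra ℚ F] {C : Type u}
    [Category.{v} C] (T : Periods F C) (D : Graded k C) : Prop :=
  ∀ X : Sch k, SmProj X → ∀ i p q : ℤ, T.hodge (D.H X i i) p q ≠ 0 → p + q = i

variable {k : Type} [Field k] {F : Type} [Field F] [Algebra ℚ F] {C : Type u} [Category.{v} C]
  [Abelian C] {T : Periods F C} {D : Graded k C}

/-- There is nothing to prove in even degrees. -/
lemma even_every (hT : IsPeriods T D) (hW : IsPure T D) {X : Sch k} (hX : SmProj X) {i : ℤ}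
    (hi : Even i) : Every D.L (DeligneOdd T) (D.H X i i) := by
  intro B B' s r h ht hB'
  obtain ⟨n, hn⟩ := hodge_isTwist' hT ht
  have h1 : ∀ p q, T.hodge B' p q = 0 := by
    intro p q
    by_contra hh
    obtain ⟨w, ho, hw⟩ := id hB'
    have h2 := hw p q hh
    rw [hn] at hh
    have h3 := hodge_summand' hT s r h (p + n) (q + n)
    have h4 := hW X hX i (p + n) (q + n) (by omega)
    obtain ⟨c, hc⟩ := hi
    obtain ⟨e, he⟩ := ho
    omega
  exact odd_zero hT B' (hT.faithful B' h1) hB'

/-- the restriction of a stable property to odd weights -/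
lemma stable_odd {Q : ℤ → C → Prop} (hQ0 : ∀ w A, IsZero A → Q w A)
    (hQ1 : ∀ w A B, Q w A → Q w B → Q w (A ⊞ B))
    (hQ2 : ∀ w A B (s : A ⟶ B) (r : B ⟶ A), s ≫ r = 𝟙 A → Q w B → Q w A)
    (hQ3 : ∀ w A, Q (w + 2) (D.L.obj A) ↔ Q w A) :
    Stable D (fun w A => Odd w → Q w A) where
  zero w A hA _ := hQ0 w A hA
  sum w A B hA hB hw := hQ1 w A B (hA hw) (hB hw)
  summand w A B s r h hB hw := hQ2 w A B s r h (hB hw)
  twist w A := by
    have h1 : Odd (w + 2) ↔ Odd w := by
      rw [Int.odd_add]
      simp
    rw [h1, hQ3]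
  unit h := by
    exact absurd h (by decide)

/-- Deligne's conjecture in odd weight for the cohomology of the smooth projective schemes of
dimension at most `n`. -/
theorem odd_dim [PerfectField k] (hf : IsFrac k) (hC : Semisimple C) (hD : IsCoh D)
    [D.L.IsEquivalence] (hT : IsPeriods T D) (hW : IsPure T D) (n : ℕ) :
    (∀ X : Sch k, SmProj X → topologicalKrullDim X.left ≤ n → ∀ i,
        Every D.L (DeligneOdd T) (D.H X i i)) ↔
      ∀ (N : Type) [CommRing N] [IsDomain N] [Algebra k N] [Algebra.Smooth k N], ArrAlg k N →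
        ∀ m : ℕ, Odd m → m ≤ n → ringKrullDim N = m →
          Every D.L (DeligneOdd T) (D.H (aff k N) m m) := by
  have hs := stable_every hC (additive_odd hT) (odd_unit hT)
  have hQ : Stable D (fun w A => Odd w → Every D.L (DeligneOdd T) A) :=
    stable_odd hs.zero hs.sum hs.summand hs.twist
  have h1 := mid_dim hf hC hD hQ n
  constructor
  · intro h N _ _ _ _ hN m hm hmn hd
    refine h1.mp (fun X hX hX' i _ => h X hX hX' i) N hN m hmn hd ?_
    exact_mod_cast hm
  · intro h X hX hX' i
    rcases Int.even_or_odd i with hi | hi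
    · exact even_every hT hW hX hi
    · exact h1.mpr (fun N _ _ _ _ hN m hmn hd hm => h N hN m (by exact_mod_cast hm) hmn hd)
        X hX hX' i hi

/-- Deligne's conjecture in odd weight for all motives. -/
theorem odd_all [PerfectField k] (hf : IsFrac k) (hC : Semisimple C) (hD : IsCoh D)
    [D.L.IsEquivalence] (hG : ∀ M : C, Gen D M) (hT : IsPeriods T D) (hW : IsPure T D) :
    (∀ M : C, DeligneOdd T M) ↔
      ∀ (N : Type) [CommRing N] [IsDomain N] [Algebra k N] [Algebra.Smooth k N], ArrAlg k N →
        ∀ m : ℕ, Odd m → ringKrullDim N = m → Every D.L (DeligneOdd T) (D.H (aff k N) m m) := by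
  have hs := stable_every hC (additive_odd hT) (odd_unit hT)
  have hQ : Stable D (fun w A => Odd w → Every D.L (DeligneOdd T) A) :=
    stable_odd hs.zero hs.sum hs.summand hs.twist
  have h1 := mid_all hf hC hD hQ
  rw [all_every hC hG (additive_odd hT)]
  constructor
  · intro h N _ _ _ _ hN m hm hd
    refine h1.mp (fun X hX i _ => h X hX i) N hN m hd ?_
    exact_mod_cast hm
  · intro h X hX i
    rcases Int.even_or_odd i with hi | hi
    · exact even_every hT hW hX hi
    · exact h1.mpr (fun N _ _ _ _ hN m hd hm => h N hN m (by exact_mod_cast hm) hd) X hX i hi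

end Pool.Agent.H71.AR
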