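import Pool.Agent.H71.AR.OccDefs
import Pool.Agent.H71.AR.Lef

/-!
# Galois representations of Hilbert newforms and line arrangements
-/

set_option autoImplicit false

open CategoryTheory CategoryTheory.Limits AlgebraicGeometry

namespace Pool.Agent.H71.AR

open Pool.Agent.Y116.UV Pool.Agent.Y101.Th Pool.Agent.Y691.TU Pool.Agent.Z125.UN

universe v u v' u'

section

variable {𝓡 : Type u'} [Category.{v'} 𝓡]

lemma OccursIn.mono {ρ V W : 𝓡} (f : V ⟶ W) [Mono f] (h : OccursIn ρ V) : OccursIn ρ W := by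
  obtain ⟨K, i, q, hi, hq⟩ := h
  exact ⟨K, i ≫ f, q, mono_comp _ _, hq⟩

lemma OccursIn.iso_left {ρ ρ' V : 𝓡} (e : ρ ≅ ρ') (h : OccursIn ρ V) : OccursIn ρ' V := by
  obtain ⟨K, i, q, hi, hq⟩ := h
  exact ⟨K, i, q ≫ e.hom, hi, epi_comp _ _⟩

lemma occursIn_equiv (T : 𝓡 ≌ 𝓡) (ρ V : 𝓡) :
    OccursIn (T.functor.obj ρ) (T.functor.obj V) ↔ OccursIn ρ V := by
  have h1 : ∀ (S : 𝓡 ≌ 𝓡) (ρ V : 𝓡), OccursIn ρ V → OccursIn (S.functor.obj ρ) (S.functor.obj V) := by
    rintro S ρ V ⟨K, i, q, hi, hq⟩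
    exact ⟨S.functor.obj K, S.functor.map i, S.functor.map q, inferInstance, inferInstance⟩
  refine ⟨fun h => ?_, h1 T ρ V⟩
  have h2 := h1 T.symm _ _ h
  exact (OccursIn.mono (T.unitIso.app V).inv h2).iso_left (T.unitIso.app ρ).symm

variable [Abelian 𝓡]

lemma OccursIn.of_isZero {ρ V : 𝓡} [Simple ρ] (hV : IsZero V) : ¬ OccursIn ρ V := by
  rintro ⟨K, i, q, hi, hq⟩
  have hK : IsZero K := by
    rw [IsZero.iff_id_eq_zero, ← cancel_mono i]
    exact hV.eq_of_tgt _ _
  have h0 : q = 0 := hK.eq_of_src _ _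
  refine Simple.not_isZero ρ ?_
  rw [IsZero.iff_id_eq_zero, ← cancel_epi q, h0]
  simp

lemma OccursIn.biprod {ρ V W : 𝓡} [Simple ρ] (h : OccursIn ρ (V ⊞ W)) :
    OccursIn ρ V ∨ OccursIn ρ W := by
  obtain ⟨K, i, q, hi, hq⟩ := h
  by_cases h0 : kernel.ι (i ≫ biprod.snd) ≫ q = 0
  · right
    let q' : Abelian.coimage (i ≫ (biprod.snd : V ⊞ W ⟶ W)) ⟶ ρ := cokernel.desc _ q h0
    have h1 : cokernel.π (kernel.ι (i ≫ (biprod.snd : V ⊞ W ⟶ W))) ≫ q' = q :=
      cokernel.π_desc _ _ _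
    refine ⟨_, Abelian.factorThruCoimage (i ≫ (biprod.snd : V ⊞ W ⟶ W)), q', inferInstance, ?_⟩
    have : Epi (cokernel.π (kernel.ι (i ≫ (biprod.snd : V ⊞ W ⟶ W))) ≫ q') := by
      rw [h1]
      exact hq
    exact epi_of_epi (cokernel.π (kernel.ι (i ≫ (biprod.snd : V ⊞ W ⟶ W)))) q'
  · left
    refine ⟨_, kernel.ι (i ≫ biprod.snd) ≫ i ≫ biprod.fst, kernel.ι (i ≫ biprod.snd) ≫ q, ?_,
      epi_of_nonzero_to_simple h0⟩
    refine Preadditive.mono_of_cancel_zero _ fun {G} g hg => ?_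
    rw [← cancel_mono (kernel.ι (i ≫ (biprod.snd : V ⊞ W ⟶ W))), ← cancel_mono i, zero_comp,
      zero_comp]
    apply biprod.hom_ext
    · simpa using hg
    · have := kernel.condition (i ≫ (biprod.snd : V ⊞ W ⟶ W))
      simp only [Category.assoc, zero_comp]
      rw [this, comp_zero]

end

variable {F : Type} [Field F] {C : Type u} [Category.{v} C] [Abelian C] {𝓡 : Type u'}
  [Category.{v'} 𝓡] [Abelian 𝓡] {D : Graded ℚ C} {T : HilbertData F C 𝓡}

/-- the representation does not occur in the motive of weight `i` -/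
def NotIn (T : HilbertData F C 𝓡) (f : T.Form) (i : ℤ) (A : C) : Prop :=
  ∀ j : ℤ, i = 2 * j + 1 → ¬ OccursIn (T.rho f j) (T.real.obj A)

lemma notIn_stable (hT : IsHilbert D T) (f : T.Form) : Stable D (NotIn T f) := by
  have := hT.additive
  refine ⟨?_, ?_, ?_, ?_, ?_⟩
  · intro w A hA j _
    have := hT.simple f j
    exact OccursIn.of_isZero (T.real.map_isZero hA)
  · intro w A B hA hB j hj h
    have := hT.simple f j
    have h0 : PreservesBinaryBiproduct A B T.real :=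
      (preservesBinaryBiproducts_of_preservesBiproducts T.real).preserves
    have h1 : OccursIn (T.rho f j) (T.real.obj A ⊞ T.real.obj B) :=
      OccursIn.mono (T.real.mapBiprod A B).hom h
    rcases h1.biprod with h2 | h2
    · exact hA j hj h2
    · exact hB j hj h2
  · intro w A B s r hs hB j hj h
    have h1 : Mono (T.real.map s) := by
      have h2 : T.real.map s ≫ T.real.map r = 𝟙 _ := by
        rw [← T.real.map_comp, hs, T.real.map_id]
      have h3 : Mono (T.real.map s ≫ T.real.map r) := by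
        rw [h2]
        infer_instance
      exact mono_of_mono _ (T.real.map r)
    exact hB j hj (OccursIn.mono (T.real.map s) h)
  · intro w A
    obtain ⟨e⟩ := hT.tate A
    have key : ∀ j : ℤ, OccursIn (T.rho f (j + 1)) (T.real.obj (D.L.obj A)) ↔
        OccursIn (T.rho f j) (T.real.obj A) := by
      intro j
      obtain ⟨e'⟩ := hT.twist f j
      rw [← occursIn_equiv T.tate (T.rho f j)]
      constructor
      · intro h
        exact (OccursIn.mono e.hom h).iso_left e'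
      · intro h
        exact (OccursIn.mono e.inv h).iso_left e'.symm
    constructor
    · intro h j hj
      rw [← key]
      exact h (j + 1) (by omega)
    · intro h j hj
      obtain ⟨i, rfl⟩ : ∃ i, j = i + 1 := ⟨j - 1, by ring⟩
      rw [key]
      exact h i (by omega)
  · intro j hj
    omega

/-- **Dimension by dimension.** -/
theorem occ_dim (hC : Semisimple C) (hD : IsCoh D) (hT : IsHilbert D T) (f : T.Form) (n : ℕ) :
    (∃ (Y : Sch ℚ) (j : ℤ), SmProj Y ∧ topologicalKrullDim Y.left ≤ n ∧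
      OccursIn (T.rho f j) (T.real.obj (D.H Y (2 * j + 1) (2 * j + 1)))) ↔
    ∃ (N : Type) (_ : CommRing N) (_ : IsDomain N) (_ : Algebra ℚ N) (_ : Algebra.Smooth ℚ N)
      (m : ℕ) (j : ℤ), ArrAlg ℚ N ∧ ringKrullDim N = m ∧ m ≤ n ∧ (m : ℤ) = 2 * j + 1 ∧
        OccursIn (T.rho f j) (T.real.obj (D.H (aff ℚ N) m m)) := by
  have h := mid_dim isFrac_rat hC hD (notIn_stable hT f) n
  constructor
  · rintro ⟨Y, j, hY, hd, ho⟩
    by_contra hcon
    refine h.mpr ?_ Y hY hd (2 * j + 1) j rfl ho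
    intro N _ _ _ _ hN m hm hd' j' hj' ho'
    exact hcon ⟨N, _, inferInstance, _, inferInstance, m, j', hN, hd', hm, hj', ho'⟩
  · rintro ⟨N, _, _, _, _, m, j, hN, hd, hm, hj, ho⟩
    by_contra hcon
    refine h.mp ?_ N hN m hm hd j hj ho
    intro X hX hd' i j' hj' ho'
    subst hj'
    exact hcon ⟨X, j', hX, hd', ho'⟩

/-- **Dimension one.** -/
theorem occ_one (hC : Semisimple C) (hD : IsCoh D) (hT : IsHilbert D T) (f : T.Form) :
    Attached T f ↔
    ∃ (N : Type) (_ : CommRing N) (_ : IsDomain N) (_ : Algebra ℚ N) (_ : Algebra.Smooth ℚ N),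
      ArrAlg ℚ N ∧ ringKrullDim N = (1 : ℕ) ∧
        OccursIn (T.rho f 0) (T.real.obj (D.H (aff ℚ N) 1 1)) := by
  have hQ := notIn_stable hT f
  have h1 : ∀ A : C, NotIn T f 1 A ↔ ¬ OccursIn (T.rho f 0) (T.real.obj A) := by
    intro A
    constructor
    · intro h
      exact h 0 (by norm_num)
    · intro h j hj
      obtain rfl : j = 0 := by omega
      exact h
  rw [hT.faltings]
  constructor
  · rintro ⟨Y, hY, hd, ho⟩
    by_contra hcon
    -- dimension zero
    have h0 : ∀ X : Sch ℚ, FT True X → topologicalKrullDim X.left < ((1 : ℕ) : WithBot ℕ∞) →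
        ∀ i : ℤ, NotIn T f i (D.H X i i) := by
      refine all_of_mid isFrac_rat hC hD hQ 1 ?_
      intro N _ _ _ _ _ m hm _ j hj
      omega
    have h2 : ∀ X : Sch ℚ, FT True X → topologicalKrullDim X.left < ((2 : ℕ) : WithBot ℕ∞) →
        NotIn T f 1 (D.H X 1 1) := by
      refine all_of_arr isFrac_rat (dev_mid hC hD hQ 1) (by exact_mod_cast Nat.succ_pos 1) ?_
      intro N _ _ _ _ hN hd'
      rcases lt_or_eq_of_le ((lt_succ_iff _ 1).mp hd') with h3 | h3
      · exact h0 _ (ft_aff True) (by rw [topDim_aff]; exact h3) 1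
      · rw [h1]
        intro ho'
        exact hcon ⟨N, _, inferInstance, _, inferInstance, hN, h3, ho'⟩
    exact (h1 _).mp (h2 Y hY.ft ((lt_succ_iff _ 1).mpr hd)) ho
  · rintro ⟨N, _, _, _, _, hN, hd, ho⟩
    obtain ⟨Y, hY, hd', s, r, hs⟩ := hD.compact (aff ℚ N) (ft_aff True) 1
    refine ⟨Y, hY, ?_, ?_⟩
    · rw [topDim_aff, hd] at hd'
      exact hd'
    · by_contra hcon
      exact (h1 _).mp (hQ.summand 1 _ _ s r hs ((h1 _).mpr hcon)) ho

end Pool.Agent.H71.AR
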