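import Pool.Agent.H71.AR.ParDefs

/-!
# Parshin's conjecture and line arrangements
-/

set_option autoImplicit false

open CategoryTheory CategoryTheory.Limits AlgebraicGeometry

namespace Pool.Agent.H71.AR

open Pool.Agent.Y116.UV Pool.Agent.Y101.Th Pool.Agent.Z125.UN Pool.Agent.Y691.TU

universe v u

lemma isFrac_zmod (p : ℕ) [Fact p.Prime] : IsFrac (ZMod p) := fun x =>
  ⟨1, x.val, by simp, by simp⟩

variable {p : ℕ} [Fact p.Prime] {M : Type u} [Category.{v} M] [Preadditive M]
  {D : WeightData (ZMod p) M} {T : KData p M}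

lemma torsion_iff (hT : IsK D T) (m d : ℕ) :
    Torsion T m d ↔ ∀ Y : Sch (ZMod p), SmProj Y → topologicalKrullDim Y.left ≤ d →
      IsZero (T.K m Y.left) := by
  constructor
  · intro h Y hY hd
    exact h (ZMod p) Y hY hd
  · intro h F _ _ _ X hX hd
    exact h (toPrime p F X) (hT.restrict F X hX) hd

lemma dev_par (hT : IsK D T) (m : ℕ) :
    Dev True (fun X : Sch (ZMod p) => ∀ n : ℕ, m ≤ n → IsZero (T.Kc n X)) where
  iso := fun hX e h n hn => by
    obtain ⟨e'⟩ := hT.iso n hX e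
    exact (h n hn).of_iso e'.symm
  total := fun i j hX ht hZ hU n hn => by
    obtain ⟨f, g, w, hE⟩ := hT.exact₁ n i j hX ht
    exact hE.isZero_X₂ ((hU n hn).eq_zero_of_src f) ((hZ n hn).eq_zero_of_tgt g)
  opened := fun i j hX ht hZ hX' n hn => by
    obtain ⟨f, g, w, hE⟩ := hT.exact₂ n i j hX ht
    exact hE.isZero_X₂ ((hZ (n + 1) (by omega)).eq_zero_of_src f) ((hX' n hn).eq_zero_of_tgt g)

/-- Compact supports. -/
theorem par_compact (hT : IsK D T) (m d : ℕ) :
    (∀ n, m ≤ n → Torsion T n d) ↔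
      ∀ n, m ≤ n → ∀ (N : Type) [CommRing N] [IsDomain N] [Algebra (ZMod p) N]
        [Algebra.Smooth (ZMod p) N], ArrAlg (ZMod p) N → ringKrullDim N ≤ d →
          IsZero (T.Kc n (aff (ZMod p) N)) := by
  constructor
  · intro h n hn N _ _ _ _ _ hd
    refine hT.weights m d (fun n hn Y hY hYd => (torsion_iff hT n d).mp (h n hn) Y hY hYd) n hn _
      (ft_aff True) (by rwa [topDim_aff])
  · intro h n hn
    rw [torsion_iff hT]
    intro Y hY hd
    obtain ⟨e⟩ := hT.proj n Y hY
    refine IsZero.of_iso ?_ e.symm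
    refine all_of_arr (d := ((d + 1 : ℕ) : WithBot ℕ∞)) (isFrac_zmod p) (dev_par hT m)
      (by exact_mod_cast Nat.succ_pos d) ?_ Y hY.ft ((lt_succ_iff _ _).mpr hd) n hn
    intro N _ _ _ _ hN hd n hn
    exact h n hn N hN ((lt_succ_iff _ _).mp hd)

variable [HasZeroObject M] [HasBinaryBiproducts M]

/-- Weight complexes. -/
theorem par_weight (hD : IsWeight D) (hT : IsK D T) (m d : ℕ) :
    Torsion T m d ↔
      ∀ (N : Type) [CommRing N] [IsDomain N] [Algebra (ZMod p) N] [Algebra.Smooth (ZMod p) N],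
        ArrAlg (ZMod p) N → ringKrullDim N ≤ d →
          ∀ i : ℤ, IsZero (wtH D (T.mot m) i (aff (ZMod p) N)) := by
  rw [torsion_iff hT, ← wt_dim hD (T.mot m) (isFrac_zmod p) d]
  refine forall_congr' fun Y => forall_congr' fun hY => forall_congr' fun _ => ?_
  obtain ⟨e⟩ := hT.motive m Y hY
  exact e.symm.isZero_iff

end Pool.Agent.H71.AR
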