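import Pool.Graph.R_pool_sql_team_seeded_1acbe0a2.Y101.Th.PairDefs

/-!
# Weight complexes of schemes and additive functors of Chow motives: definitions
-/

set_option autoImplicit false

open CategoryTheory CategoryTheory.Limits AlgebraicGeometry

namespace Pool.Agent.H71.AR

open Pool.Agent.Y116.UV Pool.Agent.Y101.Th

universe v u v' u'

/-- Data: a category `M` of motives over the field `k`, the motives `h Y` of the smooth projective
schemes `Y`, and complexes `W X` of motives for the schemes `X` of finite type (the weight complexes;
they are unique up to homotopy equivalence). -/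
structure WeightData (k : Type) [Field k] (M : Type u) [Category.{v} M] [Preadditive M] where
  /-- the motive of a smooth projective scheme -/
  h : Sch k → M
  /-- the weight complex -/
  W : Sch k → CochainComplex M ℤ

variable {k : Type} [Field k] {M : Type u} [Category.{v} M] [Preadditive M]

/-- The properties of the weight complexes (Gillet and Soulé), for the cohomology with compact supports:
isomorphic schemes have homotopy equivalent weight complexes; for a closed subscheme `Z` of `X` with the
complement `U` the complex `W Z` is homotopy equivalent to the cone of a morphism `W U ⟶ W X`; `W Y` is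
homotopy equivalent to the motive `h Y` in degree zero if `Y` is smooth and projective; if `X` has
dimension at most `d` then `W X` is homotopy equivalent to a complex whose terms are direct summands of
motives of smooth projective schemes of dimension at most `d`. -/
structure IsWeight [HasZeroObject M] [HasBinaryBiproducts M] (D : WeightData k M) : Prop where
  iso : ∀ {X Y : Sch k}, FT True X → Nonempty (X ≅ Y) → Nonempty (HomotopyEquiv (D.W X) (D.W Y))
  cone : ∀ {Z X U : Sch k} (i : Z ⟶ X) (j : U ⟶ X), FT True X → IsTriple i j →
    ∃ f : D.W U ⟶ D.W X, Nonempty (HomotopyEquiv (CochainComplex.mappingCone f) (D.W Z))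
  proj : ∀ Y : Sch k, SmProj Y → Nonempty (HomotopyEquiv (D.W Y)
    ((HomologicalComplex.single M (ComplexShape.up ℤ) 0).obj (D.h Y)))
  terms : ∀ (d : ℕ) (X : Sch k), FT True X → topologicalKrullDim X.left ≤ d →
    ∃ K : CochainComplex M ℤ, Nonempty (HomotopyEquiv (D.W X) K) ∧
      ∀ i : ℤ, ∃ Y : Sch k, SmProj Y ∧ topologicalKrullDim Y.left ≤ d ∧
        ∃ (s : K.X i ⟶ D.h Y) (r : D.h Y ⟶ K.X i), s ≫ r = 𝟙 _

/-- The object `H^i(F(W(X)))` for an additive functor `F` of motives. -/
noncomputable def wtH {A : Type u'} [Category.{v'} A] [Abelian A] (D : WeightData k M) (F : M ⥤ A)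
    [F.Additive] (i : ℤ) (X : Sch k) : A :=
  ((F.mapHomologicalComplex (ComplexShape.up ℤ)).obj (D.W X)).homology i

end Pool.Agent.H71.AR
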