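import Pool.Agent.H71.AR.Lef
import Pool.Agent.H71.AR.WtDefs

/-!
# Weight complexes of moduli spaces of line arrangements
-/

set_option autoImplicit false

open CategoryTheory CategoryTheory.Limits AlgebraicGeometry Pretriangulated

namespace Pool.Agent.H71.AR

open Pool.Agent.Y116.UV Pool.Agent.Y101.Th Pool.Agent.Y691.TU Pool.Agent.Z125.UN

universe v u v' u'

variable {k : Type} [Field k] {M : Type u} [Category.{v} M] [Preadditive M] [HasZeroObject M]
  [HasBinaryBiproducts M] {D : WeightData k M} {A : Type u'} [Category.{v'} A] [Abelian A]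

/-- the class of a complex in the homotopy category -/
noncomputable abbrev cls (K : CochainComplex M ℤ) : HomotopyCategory M (ComplexShape.up ℤ) :=
  (HomotopyCategory.quotient M (ComplexShape.up ℤ)).obj K

/-- the schemes whose weight complexes lie in a triangulated subcategory -/
lemma dev_weight (hD : IsWeight D) (S : ObjectProperty (HomotopyCategory M (ComplexShape.up ℤ)))
    [S.IsTriangulated] [S.IsClosedUnderIsomorphisms] :
    Dev True (fun X : Sch k => S (cls (D.W X))) where
  iso := fun hX e h => by
    obtain ⟨e'⟩ := hD.iso hX e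
    exact S.prop_of_iso (HomotopyCategory.isoOfHomotopyEquiv e') h
  total := fun i j hX ht hZ hU => by
    obtain ⟨f, ⟨e⟩⟩ := hD.cone i j hX ht
    exact S.ext_of_isTriangulatedClosed₂ _
      (HomotopyCategory.mappingCone_triangleh_distinguished f) hU
      (S.prop_of_iso (HomotopyCategory.isoOfHomotopyEquiv e.symm) hZ)
  opened := fun i j hX ht hZ hX' => by
    obtain ⟨f, ⟨e⟩⟩ := hD.cone i j hX ht
    exact S.ext_of_isTriangulatedClosed₁ _
      (HomotopyCategory.mappingCone_triangleh_distinguished f) hX'
      (S.prop_of_iso (HomotopyCategory.isoOfHomotopyEquiv e.symm) hZ)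

section functor

variable (D) (F : M ⥤ A) [F.Additive]

/-- the complexes of motives which become acyclic after applying `F` -/
noncomputable def acy : ObjectProperty (HomotopyCategory M (ComplexShape.up ℤ)) :=
  (HomotopyCategory.subcategoryAcyclic A).inverseImage (F.mapHomotopyCategory (ComplexShape.up ℤ))

instance : (acy F).IsTriangulated := by
  unfold acy
  infer_instance

instance : (acy F).IsClosedUnderIsomorphisms := by
  unfold acy
  infer_instance

lemma acy_quotient (K : CochainComplex M ℤ) :
    acy F (cls K) ↔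
      ((F.mapHomologicalComplex (ComplexShape.up ℤ)).obj K).Acyclic := by
  have e := (F.mapHomotopyCategoryFactors (ComplexShape.up ℤ)).app K
  change HomotopyCategory.subcategoryAcyclic A _ ↔ _
  rw [← HomotopyCategory.quotient_obj_mem_subcategoryAcyclic_iff_acyclic]
  exact (HomotopyCategory.subcategoryAcyclic A).prop_iff_of_iso e

lemma acy_iff (X : Sch k) : acy F (cls (D.W X)) ↔ ∀ i, IsZero (wtH D F i X) := by
  rw [acy_quotient]
  exact forall_congr' fun i => HomologicalComplex.exactAt_iff_isZero_homology _ _

lemma acyclic_single (B : A) :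
    ((HomologicalComplex.single A (ComplexShape.up ℤ) 0).obj B).Acyclic ↔ IsZero B := by
  constructor
  · intro h
    exact ((HomologicalComplex.exactAt_iff_isZero_homology _ _).mp (h 0)).of_iso
      (HomologicalComplex.singleObjHomologySelfIso (ComplexShape.up ℤ) 0 B).symm
  · intro h i
    by_cases hi : i = 0
    · subst hi
      exact (HomologicalComplex.exactAt_iff_isZero_homology _ _).mpr
        (h.of_iso (HomologicalComplex.singleObjHomologySelfIso (ComplexShape.up ℤ) 0 B))
    · exact HomologicalComplex.exactAt_single_obj _ _ _ _ hi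

lemma acy_single (B : M) :
    acy F (cls ((HomologicalComplex.single M (ComplexShape.up ℤ) 0).obj B)) ↔
      IsZero (F.obj B) := by
  rw [acy_quotient, ← acyclic_single (F.obj B),
    ← HomotopyCategory.quotient_obj_mem_subcategoryAcyclic_iff_acyclic,
    ← HomotopyCategory.quotient_obj_mem_subcategoryAcyclic_iff_acyclic]
  exact (HomotopyCategory.subcategoryAcyclic A).prop_iff_of_iso
    ((HomotopyCategory.quotient A (ComplexShape.up ℤ)).mapIso
      ((HomologicalComplex.singleMapHomologicalComplex F (ComplexShape.up ℤ) 0).app B))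

end functor

section

variable (hD : IsWeight D) (F : M ⥤ A) [F.Additive]

include hD

lemma acy_proj {Y : Sch k} (hY : SmProj Y) : acy F (cls (D.W Y)) ↔ IsZero (F.obj (D.h Y)) := by
  obtain ⟨e⟩ := hD.proj Y hY
  rw [(acy F).prop_iff_of_iso (HomotopyCategory.isoOfHomotopyEquiv e), acy_single]

lemma acy_terms (d : ℕ)
    (h : ∀ Y : Sch k, SmProj Y → topologicalKrullDim Y.left ≤ d → IsZero (F.obj (D.h Y)))
    (X : Sch k) (hX : FT True X) (hd : topologicalKrullDim X.left ≤ d) : acy F (cls (D.W X)) := by
  obtain ⟨K, ⟨e⟩, hK⟩ := hD.terms d X hX hd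
  rw [(acy F).prop_iff_of_iso (HomotopyCategory.isoOfHomotopyEquiv e), acy_quotient]
  intro i
  obtain ⟨Y, hY, hYd, s, r, hsr⟩ := hK i
  have h1 : IsZero (F.obj (K.X i)) := by
    rw [IsZero.iff_id_eq_zero, ← F.map_id, ← hsr, F.map_comp, (h Y hY hYd).eq_zero_of_tgt (F.map s),
      zero_comp]
  exact ShortComplex.exact_of_isZero_X₂ _ h1

/-- **Weight complexes and line arrangements.** For an additive functor `F` of Chow motives over a
perfect field `k` of fractions of integers and all `d`, the following are equivalent: `F` vanishes on the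
motives of the smooth projective schemes of dimension at most `d`; the complexes `F(W(N))` are acyclic
for all smooth integral moduli spaces `N` of line arrangements of dimension at most `d`. -/
theorem wt_dim [PerfectField k] (hf : IsFrac k) (d : ℕ) :
    (∀ Y : Sch k, SmProj Y → topologicalKrullDim Y.left ≤ d → IsZero (F.obj (D.h Y))) ↔
      ∀ (N : Type) [CommRing N] [IsDomain N] [Algebra k N] [Algebra.Smooth k N], ArrAlg k N →
        ringKrullDim N ≤ d → ∀ i, IsZero (wtH D F i (aff k N)) := by
  constructor
  · intro h N _ _ _ _ _ hd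
    rw [← acy_iff]
    exact acy_terms hD F d h _ (ft_aff True) (by rwa [topDim_aff])
  · intro h Y hY hd
    rw [← acy_proj hD F hY]
    refine all_of_arr (d := ((d + 1 : ℕ) : WithBot ℕ∞)) hf (dev_weight hD (acy F))
      (by exact_mod_cast Nat.succ_pos d) ?_ Y hY.ft ((lt_succ_iff _ _).mpr hd)
    intro N _ _ _ _ hN hd
    rw [acy_iff]
    exact h N hN ((lt_succ_iff _ _).mp hd)

/-- All dimensions. -/
theorem wt_all [PerfectField k] (hf : IsFrac k) :
    (∀ Y : Sch k, SmProj Y → IsZero (F.obj (D.h Y))) ↔
      ∀ (N : Type) [CommRing N] [IsDomain N] [Algebra k N] [Algebra.Smooth k N], ArrAlg k N →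
        ∀ i, IsZero (wtH D F i (aff k N)) := by
  constructor
  · intro h N _ _ _ _ hN i
    obtain ⟨d, hd⟩ := exists_dim (k := k) N
    exact (wt_dim hD F hf d).mp (fun Y hY _ => h Y hY) N hN hd.le i
  · intro h Y hY
    rw [← acy_proj hD F hY]
    have hP := dev_weight hD (acy F)
    refine of_affine' (P := fun X => acy F (cls (D.W X))) (sep := True) hP.iso hP.total ?_ Y hY.ft
    intro A _ _ _
    obtain ⟨d, hd⟩ := exists_dim (k := k) A
    refine all_of_arr (d := ((d + 1 : ℕ) : WithBot ℕ∞)) hf hP
      (by exact_mod_cast Nat.succ_pos d) ?_ (aff k A) (ft_aff True) ?_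
    · intro N _ _ _ _ hN _
      rw [acy_iff]
      exact h N hN
    · rw [topDim_aff]
      exact (lt_succ_iff _ _).mpr hd.le

end

end Pool.Agent.H71.AR
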