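import Pool.Agent.H71.AR.AHDefs

/-!
# Absolute Hodge classes and line arrangements
-/

set_option autoImplicit false

open CategoryTheory CategoryTheory.Limits AlgebraicGeometry

namespace Pool.Agent.H71.AR

open Pool.Agent.Y116.UV Pool.Agent.Y101.Th Pool.Agent.Z125.UN Pool.Agent.Y691.TU

universe v u v' u'

/-- The complex scheme `Y_ℂ` of a scheme `Y` over `ℚ`. -/
noncomputable def baseC (Y : Sch ℚ) : Sch ℂ :=
  (Over.pullback (Spec.map (CommRingCat.ofHom (algebraMap ℚ ℂ)))).obj Y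

variable {M : Type u'} [Category.{v'} M] [Preadditive M] {𝓒 : Type u} [Category.{v} 𝓒]
  [Preadditive 𝓒]

/-- Known properties of the base change functor `b` from the Chow motives over `ℚ` to the complex Chow
motives: if `Y` is smooth and projective over `ℚ` then `Y_ℂ` is smooth and projective over `ℂ`, and
`b(h(Y))` is isomorphic to `h(Y_ℂ)`. -/
structure IsBaseC (D : WeightData ℚ M) (T : HodgeData.{v, u} 𝓒) (b : M ⥤ 𝓒) : Prop where
  smProj : ∀ Y : Sch ℚ, SmProj Y → SmProj (baseC Y)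
  iso : ∀ Y : Sch ℚ, SmProj Y → Nonempty (b.obj (D.h Y) ≅ T.h (baseC Y))

/-- Known theorem (Deligne, Voisin): every absolute Hodge class of degree `p` on a smooth projective
complex scheme `X` is the image of an absolute Hodge class on `Y_ℂ` under a morphism
`h(Y_ℂ) ⟶ h(X)`, where `Y` is a smooth projective scheme over `ℚ`. -/
def Spreading (T : HodgeData.{v, u} 𝓒) (p : ℕ) : Prop :=
  ∀ (X : Sch ℂ) (x : (AH T p).obj (T.h X)), SmProj X → ∃ Y : Sch ℚ, SmProj Y ∧
    ∃ (f : T.h (baseC Y) ⟶ T.h X) (y : (AH T p).obj (T.h (baseC Y))), (AH T p).map f y = x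

/-- The complexes `AH^p(W(N)_ℂ) / Alg^p(W(N)_ℂ)` are exact for all smooth integral moduli spaces `N` of
line arrangements over `ℚ` of dimension at most `d`; `W(N)` is the weight complex of `N`. -/
def AHExact (D : WeightData ℚ M) {T : HodgeData.{v, u} 𝓒} (hT : CyclesAreAbsolute T) (b : M ⥤ 𝓒)
    [b.Additive] (p d : ℕ) : Prop :=
  ∀ (N : Type) [CommRing N] [IsDomain N] [Algebra ℚ N] [Algebra.Smooth ℚ N], ArrAlg ℚ N →
    ringKrullDim N ≤ d → ∀ i : ℤ, IsZero (wtH D (b ⋙ AHQuot hT p) i (aff ℚ N))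

variable [HasZeroObject M] [HasBinaryBiproducts M] {D : WeightData ℚ M} {T : HodgeData.{v, u} 𝓒}
  {b : M ⥤ 𝓒} [b.Additive]

omit [HasZeroObject M] [HasBinaryBiproducts M] [Preadditive M] [Preadditive 𝓒] in
lemma isZero_quot {𝓒 : Type u} [Category.{v} 𝓒] [Preadditive 𝓒] {T : HodgeData.{v, u} 𝓒}
    (hT : CyclesAreAbsolute T) (p : ℕ) (A : 𝓒) :
    IsZero ((AHQuot hT p).obj A) ↔ Spanned hT p A :=
  isZero_cokernel (clAH hT p) A

lemma spanned_iso (hT : CyclesAreAbsolute T) (p : ℕ) {A B : 𝓒} (e : A ≅ B) :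
    Spanned hT p A ↔ Spanned hT p B := by
  rw [← isZero_quot, ← isZero_quot]
  exact ((AHQuot hT p).mapIso e).isZero_iff

/-- Each dimension. -/
theorem ah_dim (hD : IsWeight D) (hT : CyclesAreAbsolute T) (hb : IsBaseC D T b) (p d : ℕ) :
    (∀ Y : Sch ℚ, SmProj Y → topologicalKrullDim Y.left ≤ d → Spanned hT p (T.h (baseC Y))) ↔
      AHExact D hT b p d := by
  unfold AHExact
  rw [← wt_dim hD (b ⋙ AHQuot hT p) isFrac_rat d]
  refine forall_congr' fun Y => forall_congr' fun hY => forall_congr' fun _ => ?_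
  obtain ⟨e⟩ := hb.iso Y hY
  rw [← spanned_iso hT p e, ← isZero_quot]
  rfl

/-- All dimensions. -/
theorem ah_all (hD : IsWeight D) (hT : CyclesAreAbsolute T) (hb : IsBaseC D T b) (p : ℕ)
    (hs : Spreading T p) :
    (∀ X : Sch ℂ, SmProj X → Spanned hT p (T.h X)) ↔ ∀ d, AHExact D hT b p d := by
  constructor
  · intro h d
    exact (ah_dim hD hT hb p d).mp fun Y hY _ => h _ (hb.smProj Y hY)
  · intro h X hX
    have h1 : ∀ Y : Sch ℚ, SmProj Y → Spanned hT p (T.h (baseC Y)) := by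
      intro Y hY
      obtain ⟨e⟩ := hb.iso Y hY
      rw [← spanned_iso hT p e, ← isZero_quot]
      refine (wt_all hD (b ⋙ AHQuot hT p) isFrac_rat).mpr ?_ Y hY
      intro N _ _ _ _ hN i
      obtain ⟨d, hd⟩ := exists_dim (k := ℚ) N
      exact h d N hN hd.le i
    unfold Spanned
    rw [ModuleCat.epi_iff_surjective]
    intro x
    obtain ⟨Y, hY, f, y, rfl⟩ := hs X x hX
    have h2 := h1 Y hY
    unfold Spanned at h2
    rw [ModuleCat.epi_iff_surjective] at h2
    obtain ⟨z, rfl⟩ := h2 y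
    refine ⟨(T.CH p).map f z, ?_⟩
    have h3 := (clAH hT p).naturality f
    exact congrArg (fun g => (ConcreteCategory.hom g) z) h3

end Pool.Agent.H71.AR
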