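import Pool.Agent.H71.AR.Red

set_option autoImplicit false

/-!
# Moduli spaces of line arrangements and open subsets of integral affine schemes
-/

open CategoryTheory AlgebraicGeometry MvPolynomial Pool.Agent.Y116.UV Pool.Agent.W5h77.MR

namespace Pool.Agent.H71.AR

/-- The coefficients `d` in the ring `C` define a line arrangement of type `S`: the determinants of the
triples of lines in `S` are invertible (these three lines are not concurrent), the determinants of all
other triples are zero (these three lines are concurrent). -/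
def OfType {a b : ℕ} (S : Finset (Tr (Fin a) (Fin b))) {C : Type} [CommRing C]
    (d : Coe (Fin a) (Fin b) → C) : Prop :=
  (∀ t ∈ S, IsUnit (ldet d t)) ∧ ∀ t, t ∉ S → ldet d t = 0

/-- The `R`-algebra `N` is the algebra of functions on the moduli space of the line arrangements of type
`S`: there is a universal arrangement `c` of type `S` over `N`, that is, the arrangements of type `S`
over any `R`-algebra `C` correspond to the homomorphisms from `N` to `C`. -/
def Moduli (R : Type) [CommRing R] {a b : ℕ} (S : Finset (Tr (Fin a) (Fin b))) (N : Type)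
    [CommRing N] [Algebra R N] : Prop :=
  ∃ c : Coe (Fin a) (Fin b) → N, OfType S c ∧
    ∀ (C : Type) [CommRing C] [Algebra R C] (d : Coe (Fin a) (Fin b) → C), OfType S d →
      ∃! f : N →ₐ[R] C, ∀ v, f (c v) = d v

/-- The lines of the arrangements of type `S` are pairwise distinct: for any two of them there is a
third one such that the three lines are not concurrent. -/
def Distinct {a b : ℕ} (S : Finset (Tr (Fin a) (Fin b))) : Prop :=
  ∀ p q, p ≠ q → ∃ r, (p, q, r) ∈ S

/-- `N` is the algebra of functions on a moduli space of arrangements of pairwise distinct lines with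
prescribed concurrent triples. -/
def ArrAlg (R : Type) [CommRing R] (N : Type) [CommRing N] [Algebra R N] : Prop :=
  ∃ (a b : ℕ) (S : Finset (Tr (Fin a) (Fin b))), Distinct S ∧ Moduli R S N

/-- isomorphic algebras -/
lemma ArrAlg.equiv {R : Type} [CommRing R] {N N' : Type} [CommRing N] [CommRing N'] [Algebra R N]
    [Algebra R N'] (h : ArrAlg R N) (e : N ≃ₐ[R] N') : ArrAlg R N' := by
  obtain ⟨a, b, S, hS, c, ⟨h1, h2⟩, h3⟩ := h
  have hd : ∀ t, ldet (fun v => e (c v)) t = e (ldet c t) := fun t =>
    (ldet_map (e : N →+* N') c t).symm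
  refine ⟨a, b, S, hS, fun v => e (c v), ⟨?_, ?_⟩, ?_⟩
  · intro t ht
    rw [hd]
    exact (h1 t ht).map e
  · intro t ht
    rw [hd, h2 t ht, map_zero]
  · intro C _ _ d hd
    obtain ⟨f, hf, hu⟩ := h3 C d hd
    refine ⟨f.comp e.symm.toAlgHom, ?_, ?_⟩
    · intro v
      change f (e.symm (e (c v))) = d v
      rw [e.symm_apply_apply]
      exact hf v
    · intro g hg
      have h4 : g.comp e.toAlgHom = f := hu _ hg
      rw [← h4]
      ext x
      change g x = g (e (e.symm x))
      rw [e.apply_symm_apply]

variable {R : Type} [CommRing R]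

lemma line_injective {C α β : Type} [CommRing C] [Nontrivial C] (c : Coe α β → C)
    (h1 : ∀ i i', c (Sum.inl (Sum.inl i)) = c (Sum.inl (Sum.inl i')) →
        c (Sum.inl (Sum.inr i)) = c (Sum.inl (Sum.inr i')) → i = i')
    (h2 : ∀ i, c (Sum.inl (Sum.inl i)) = 0 → c (Sum.inl (Sum.inr i)) ≠ 0)
    (h3 : ∀ i, c (Sum.inl (Sum.inl i)) = 1 → c (Sum.inl (Sum.inr i)) ≠ 1)
    (h4 : ∀ j j', c (Sum.inr j) = c (Sum.inr j') → j = j')
    (h5 : ∀ j, c (Sum.inr j) ≠ 0) : Function.Injective (line c) := by
  have e0 : ∀ {u v : Fin 3 → C}, u = v → u 0 = v 0 := fun h => congrFun h 0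
  have e1 : ∀ {u v : Fin 3 → C}, u = v → u 1 = v 1 := fun h => congrFun h 1
  have e2 : ∀ {u v : Fin 3 → C}, u = v → u 2 = v 2 := fun h => congrFun h 2
  have n1 : (1 : C) ≠ 0 := one_ne_zero
  have n2 : (0 : C) ≠ 1 := zero_ne_one
  rintro (k | i | j) (l | i' | j') h
  · have g0 := e0 h
    have g1 := e1 h
    have g2 := e2 h
    fin_cases k <;> fin_cases l <;> first
      | rfl
      | (exfalso; simp [line] at g0 g1 g2)
  · have g0 := e0 h
    have g1 := e1 h
    have g2 := e2 h
    exfalso
    fin_cases k
    · exact h2 i' g1.symm g2.symm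
    · exact n2 g0
    · exact n2 g0
    · exact h3 i' g1.symm g2.symm
  · have g0 := e0 h
    have g1 := e1 h
    have g2 := e2 h
    exfalso
    fin_cases k
    · exact n1 g0
    · exact h5 j' g2.symm
    · exact n2 g1
    · exact n1 g0
  · have g0 := e0 h
    have g1 := e1 h
    have g2 := e2 h
    exfalso
    fin_cases l
    · exact h2 i g1 g2
    · exact n1 g0
    · exact n1 g0
    · exact h3 i g1 g2
  · rw [h1 i i' (e1 h) (e2 h)]
  · exact absurd (e0 h) n1
  · have g0 := e0 h
    have g1 := e1 h
    have g2 := e2 h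
    exfalso
    fin_cases l
    · exact n2 g0
    · exact h5 j g2
    · exact n1 g1
    · exact n2 g0
  · exact absurd (e0 h) n2
  · rw [h4 j j' (e2 h)]

/-- The universal property in terms of the polynomial ring. -/
lemma moduli_of_rep {R : Type} [CommRing R] {a b : ℕ} (S : Finset (Tr (Fin a) (Fin b))) {N : Type}
    [CommRing N] [Algebra R N] [alg : Algebra (MvPolynomial (Coe (Fin a) (Fin b)) R) N]
    [IsScalarTower R (MvPolynomial (Coe (Fin a) (Fin b)) R) N]
    (h : Rep (lgen R (Fin a) (Fin b)) {t | t ∉ S} ↑S N) : Moduli R S N := by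
  have hd : ∀ t, algebraMap (MvPolynomial (Coe (Fin a) (Fin b)) R) N (lgen R (Fin a) (Fin b) t) =
      ldet (fun v => algebraMap (MvPolynomial (Coe (Fin a) (Fin b)) R) N (X v)) t := by
    intro t
    rw [lgen, ldet_map]
  refine ⟨fun v => algebraMap (MvPolynomial (Coe (Fin a) (Fin b)) R) N (X v), ⟨?_, ?_⟩, ?_⟩
  · intro t ht
    rw [← hd]
    exact h.unit t ht
  · intro t ht
    rw [← hd]
    exact h.zero t ht
  · intro C _ _ d hC
    let F : MvPolynomial (Coe (Fin a) (Fin b)) R →ₐ[R] C := aeval d
    have hF : ∀ t, F (lgen R (Fin a) (Fin b) t) = ldet d t := by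
      intro t
      have h1 : (F : MvPolynomial (Coe (Fin a) (Fin b)) R →+* C) (lgen R (Fin a) (Fin b) t) =
          ldet (fun v => F (X v)) t := by
        rw [lgen, ldet_map]
        rfl
      refine h1.trans ?_
      simp only [F, aeval_X]
    obtain ⟨g, hg⟩ := h.lift C (F : MvPolynomial (Coe (Fin a) (Fin b)) R →+* C)
      (fun t ht => (hF t).trans (hC.2 t ht)) (fun t ht => by
        have h2 := hC.1 t ht
        rw [← hF] at h2
        exact h2)
    have hgR : ∀ r, g (algebraMap R N r) = algebraMap R C r := by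
      intro r
      rw [IsScalarTower.algebraMap_apply R (MvPolynomial (Coe (Fin a) (Fin b)) R) N]
      have h3 := RingHom.congr_fun hg (algebraMap R _ r)
      exact h3.trans (F.commutes r)
    refine ⟨⟨g, hgR⟩, ?_, ?_⟩
    · intro v
      have h3 := RingHom.congr_fun hg (X v)
      exact h3.trans (aeval_X d v)
    · intro f hf
      have h4 : (f : N →+* C) = g := by
        refine h.ext C _ _ ?_
        rw [hg]
        apply MvPolynomial.ringHom_ext
        · intro r
          change f (algebraMap _ N (MvPolynomial.C r)) = F (MvPolynomial.C r)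
          have h5 : algebraMap (MvPolynomial (Coe (Fin a) (Fin b)) R) N (MvPolynomial.C r) =
              algebraMap R N r :=
            (IsScalarTower.algebraMap_apply R (MvPolynomial (Coe (Fin a) (Fin b)) R) N r).symm
          rw [h5, f.commutes]
          exact (F.commutes r).symm
        · intro v
          exact (hf v).trans (aeval_X d v).symm
      ext x
      exact RingHom.congr_fun h4 x

open Pool.Agent.Z125.UN in
/-- **Universality.** Every integral affine scheme of finite type over a noetherian ring all of whose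
elements are fractions of integers has a non-empty open subscheme which is isomorphic to a moduli
space of line arrangements. -/
theorem exists_open [IsNoetherianRing R] (hR : IsFrac R) (B : Type) [CommRing B] [IsDomain B]
    [Algebra R B] [Algebra.FiniteType R B] :
    ∃ w : B, w ≠ 0 ∧ ArrAlg R (Localization.Away w) := by
  classical
  obtain ⟨G⟩ := exists_gsys hR B
  have := G.finV
  have := G.finκ
  obtain ⟨alg, hT, hrep⟩ := rep_gsys G
  obtain ⟨a, b, πa, πb, c', hsa, hsb, hc, k1, k2, k3, k4, k5⟩ := exists_pull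
    (fun v => algebraMap (MvPolynomial (Coe (La G.V G.κ) (Lb G.V)) R) B (X v))
  have hrep' := rep_pull πa πb c' hsa hsb alg hT hc hrep
  let φ : MvPolynomial (Coe (Fin a) (Fin b)) R →ₐ[R] B := aeval c'
  let alg' : Algebra (MvPolynomial (Coe (Fin a) (Fin b)) R) B := φ.toRingHom.toAlgebra
  have hφ : algebraMap (MvPolynomial (Coe (Fin a) (Fin b)) R) B = φ.toRingHom := rfl
  have hX : ∀ v, φ.toRingHom (X v) = c' v := fun v => aeval_X _ v
  have hT' : IsScalarTower R (MvPolynomial (Coe (Fin a) (Fin b)) R) B :=
    IsScalarTower.of_algebraMap_eq fun r => (φ.commutes r).symm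
  have hdet : ∀ t', algebraMap (MvPolynomial (Coe (Fin a) (Fin b)) R) B
      (lgen R (Fin a) (Fin b) t') = ldet c' t' := by
    intro t'
    rw [hφ, lgen, ldet_map]
    simp only [hX]
  let S : Finset (Tr (Fin a) (Fin b)) := Finset.univ.filter fun t => ldet c' t ≠ 0
  have hS : ∀ t, t ∈ S ↔ ldet c' t ≠ 0 := fun t => by simp [S]
  have hE : {t : Tr (Fin a) (Fin b) | ldet c' t = 0} = {t | t ∉ S} := by
    ext t
    change ldet c' t = 0 ↔ ¬ t ∈ S
    rw [hS, not_not]
  rw [hE] at hrep'
  let w : B := algebraMap (MvPolynomial (Coe (Fin a) (Fin b)) R) B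
    (∏ s ∈ S, lgen R (Fin a) (Fin b) s)
  have hw : w ≠ 0 := by
    change algebraMap (MvPolynomial (Coe (Fin a) (Fin b)) R) B _ ≠ 0
    rw [map_prod, Finset.prod_ne_zero_iff]
    intro s hs
    rw [hdet]
    exact (hS s).mp hs
  have h1 : Rep (lgen R (Fin a) (Fin b)) {t | t ∉ S} ↑S (Localization.Away w) := by
    have h2 := Rep.loc hrep' S (w := w) rfl
    rw [Set.empty_union] at h2
    exact h2
  refine ⟨w, hw, a, b, S, ?_, moduli_of_rep S h1⟩
  intro p q hpq
  by_contra hcon
  push Not at hcon
  refine hpq (line_injective c' k1 k2 k3 k4 k5 (nrm_eq (nrm_line c' p) (nrm_line c' q) ?_))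
  intro k
  have h3 := hcon (Sum.inl ((![0, 1, 2] : Fin 3 → Fin 4) k))
  rw [hS, not_not] at h3
  refine Eq.trans ?_ h3
  fin_cases k <;> rfl

end Pool.Agent.H71.AR
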