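import Pool.Agent.H71.AR.Ker
import Pool.Agent.H71.AR.Opn

/-!
# Absolute Hodge classes on complex Chow motives: definitions
-/

set_option autoImplicit false

open CategoryTheory CategoryTheory.Limits AlgebraicGeometry

namespace Pool.Agent.H71.AR

open Pool.Agent.Y116.UV Pool.Agent.Y101.Th

universe v u v' u'

/-- Data on the category `𝓒` of complex Chow motives with rational coefficients: the motives `h(X)`,
the Chow groups `CH^p(A) ⊗ ℚ`, the cohomology groups `H^{2p}(A, ℚ(p))`, the de Rham cohomology groups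
`H_dR^{2p}(A/ℂ)`, regarded as vector spaces over `ℚ`, their subspaces `F^p`, the conjugates `A^σ` of
motives, the cycle class maps, the comparison maps `H^{2p}(A, ℚ(p)) ⟶ H_dR^{2p}(A/ℂ)`, and the base
change maps `H_dR^{2p}(A/ℂ) ⟶ H_dR^{2p}(A^σ/ℂ)`. -/
structure HodgeData (𝓒 : Type u) [Category.{v} 𝓒] [Preadditive 𝓒] where
  /-- the motive of a smooth projective scheme -/
  h : Sch ℂ → 𝓒
  /-- the Chow groups -/
  CH : ℕ → 𝓒 ⥤ ModuleCat.{0} ℚ
  /-- the cohomology `H^{2p}(A, ℚ(p))` -/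
  H : ℕ → 𝓒 ⥤ ModuleCat.{0} ℚ
  /-- the algebraic de Rham cohomology -/
  dR : ℕ → 𝓒 ⥤ ModuleCat.{0} ℚ
  /-- the subspace `F^p` of the Hodge filtration -/
  Fil : ℕ → 𝓒 ⥤ ModuleCat.{0} ℚ
  /-- the conjugates of motives -/
  conj : (ℂ ≃+* ℂ) → 𝓒 ⥤ 𝓒
  /-- the cycle class map -/
  cl : ∀ p, CH p ⟶ H p
  /-- the comparison map -/
  comp : ∀ p, H p ⟶ dR p
  /-- the inclusion of `F^p` -/
  inc : ∀ p, Fil p ⟶ dR p
  /-- the conjugation of classes -/
  bc : ∀ p σ, dR p ⟶ conj σ ⋙ dR p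
  [additive : ∀ p, (H p).Additive]

attribute [instance] HodgeData.additive

variable {𝓒 : Type u} [Category.{v} 𝓒] [Preadditive 𝓒]

/-- The Hodge classes: the intersection of `H^{2p}(A, ℚ(p))` with `F^p`. -/
noncomputable def Hdg (T : HodgeData.{v, u} 𝓒) (p : ℕ) : 𝓒 ⥤ ModuleCat.{0} ℚ :=
  pullback (T.comp p) (T.inc p)

/-- The inclusion of the space of Hodge classes in the de Rham cohomology. -/
noncomputable def hdg (T : HodgeData.{v, u} 𝓒) (p : ℕ) : Hdg T p ⟶ T.dR p :=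
  pullback.fst (T.comp p) (T.inc p) ≫ T.comp p

/-- The quotient of the de Rham cohomology by the Hodge classes. -/
noncomputable def HdgQuot (T : HodgeData.{v, u} 𝓒) (p : ℕ) : 𝓒 ⥤ ModuleCat.{0} ℚ :=
  cokernel (hdg T p)

/-- The quotient of the de Rham cohomology of `A^σ` by the Hodge classes. -/
noncomputable def conjQuot (T : HodgeData.{v, u} 𝓒) (p : ℕ) (σ : ℂ ≃+* ℂ) :
    𝓒 ⥤ ModuleCat.{0} ℚ :=
  T.conj σ ⋙ HdgQuot T p

/-- The class of the conjugate `α^σ` modulo the Hodge classes. -/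
noncomputable def toConj (T : HodgeData.{v, u} 𝓒) (p : ℕ) (σ : ℂ ≃+* ℂ) :
    T.H p ⟶ conjQuot T p σ :=
  T.comp p ≫ T.bc p σ ≫ Functor.whiskerLeft (T.conj σ) (cokernel.π (hdg T p))

/-- The product of these quotients for all automorphisms `σ` of `ℂ`. -/
noncomputable def Quots (T : HodgeData.{v, u} 𝓒) (p : ℕ) : 𝓒 ⥤ ModuleCat.{0} ℚ :=
  ∏ᶜ conjQuot T p

/-- The classes of all conjugates `α^σ` modulo the Hodge classes. -/
noncomputable def obstruction (T : HodgeData.{v, u} 𝓒) (p : ℕ) : T.H p ⟶ Quots T p :=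
  Pi.lift (toConj T p)

/-- The space `AH^p(A)` of absolute Hodge classes: the classes `α` in `H^{2p}(A, ℚ(p))` such that `α^σ`
is a Hodge class on `A^σ` for all automorphisms `σ` of `ℂ`. -/
noncomputable def AH (T : HodgeData.{v, u} 𝓒) (p : ℕ) : 𝓒 ⥤ ModuleCat.{0} ℚ :=
  kernel (obstruction T p)

/-- The classes of cycles are absolute Hodge classes. -/
def CyclesAreAbsolute (T : HodgeData.{v, u} 𝓒) : Prop :=
  ∀ p, T.cl p ≫ obstruction T p = 0

/-- The cycle class map `CH^p(A) ⊗ ℚ ⟶ AH^p(A)`. -/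
noncomputable def clAH {T : HodgeData.{v, u} 𝓒} (hT : CyclesAreAbsolute T) (p : ℕ) :
    T.CH p ⟶ AH T p :=
  kernel.lift (obstruction T p) (T.cl p) (hT p)

/-- The quotient `AH^p(A) / Alg^p(A)` of the space of absolute Hodge classes by the space which is
spanned by the classes of cycles. -/
noncomputable def AHQuot {T : HodgeData.{v, u} 𝓒} (hT : CyclesAreAbsolute T) (p : ℕ) :
    𝓒 ⥤ ModuleCat.{0} ℚ :=
  cokernel (clAH hT p)

/-- The space `AH^p(A)` is spanned by the classes of cycles. -/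
def Spanned {T : HodgeData.{v, u} 𝓒} (hT : CyclesAreAbsolute T) (p : ℕ) (A : 𝓒) : Prop :=
  Epi ((clAH hT p).app A)

instance {T : HodgeData.{v, u} 𝓒} (hT : CyclesAreAbsolute T) (p : ℕ) : (AHQuot hT p).Additive := by
  have : (AH T p).Additive := by
    unfold AH
    infer_instance
  unfold AHQuot
  infer_instance

end Pool.Agent.H71.AR
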