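import Pool.Agent.H71.AR.Ker
import Pool.Agent.H71.AR.Opn

/-!
# The p-adic étale Abel–Jacobi map on Chow motives over number fields: definitions
-/

set_option autoImplicit false

open CategoryTheory CategoryTheory.Limits AlgebraicGeometry

namespace Pool.Agent.H71.AR

open Pool.Agent.Y116.UV Pool.Agent.Y101.Th

universe v u w

/-- Data on the category `M` of Chow motives over a number field `K` with rational coefficients: the
motives `h(X)`, the Tate twists `A(n)`, the group `CH0 A = CH(A)^0` of the classes in
`CH(A) = Hom(1, A)` which are homologous to zero, the Galois cohomology groups `H^1(K, V_p(A))`, where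
`V_p(A)` is `H^(2n-1)(X, ℚ_p(n))` for `A = h(X)(n)`, and the p-adic étale Abel–Jacobi maps
`AJ_p : CH(A)^0 ⟶ H^1(K, V_p(A))`. All this is functorial and additive in `A`. -/
structure AJData (K : Type) [Field K] (M : Type u) [Category.{v} M] [Preadditive M] where
  /-- the motive of a smooth projective scheme -/
  h : Sch K → M
  /-- the Tate twist `A(n)` -/
  tw : ℤ → M ⥤ M
  /-- the classes of cycles which are homologous to zero -/
  CH0 : M ⥤ ModuleCat.{w} ℚ
  /-- the Galois cohomology groups -/
  H1 : Nat.Primes → M ⥤ ModuleCat.{w} ℚ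
  /-- the Abel–Jacobi maps -/
  AJ : ∀ p : Nat.Primes, CH0 ⟶ H1 p
  [tw_additive : ∀ n, (tw n).Additive]
  [additive : CH0.Additive]

attribute [instance] AJData.tw_additive AJData.additive

variable {K : Type} [Field K] {M : Type u} [Category.{v} M] [Preadditive M]

/-- The map `AJ_p` for the motive `A` is injective. -/
def InjectiveFor (T : AJData.{v, u, w} K M) (p : Nat.Primes) (A : M) : Prop :=
  Mono ((T.AJ p).app A)

/-- `A` is a direct summand of `h(X)(n)` for a smooth projective scheme `X` of dimension at most `d`: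
it is a Chow motive `(X, e, n)` with `dim X ≤ d`. -/
def IsPart (T : AJData.{v, u, w} K M) (n : ℤ) (d : ℕ) (A : M) : Prop :=
  ∃ X : Sch K, SmProj X ∧ topologicalKrullDim X.left ≤ d ∧
    ∃ (s : A ⟶ (T.tw n).obj (T.h X)) (r : (T.tw n).obj (T.h X) ⟶ A), s ≫ r = 𝟙 _

/-- The complexes `Ker_p(W(N)(n))` are exact for all smooth integral moduli spaces `N` of line
arrangements over `ℚ` of dimension at most `d`; `Ker_p(A)` is the kernel of `AJ_p` for the motive
`A`. -/
def AllExact (T : AJData.{v, u, w} ℚ M) (W : Sch ℚ → CochainComplex M ℤ) (p : Nat.Primes) (n : ℤ)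
    (d : ℕ) : Prop :=
  ∀ (N : Type) [CommRing N] [IsDomain N] [Algebra ℚ N] [Algebra.Smooth ℚ N], ArrAlg ℚ N →
    ringKrullDim N ≤ d → ∀ j : ℤ,
      IsZero (wtH (WeightData.mk T.h W) (T.tw n ⋙ kernel (T.AJ p)) j (aff ℚ N))

/-- Known properties of the restriction of scalars `ρ` from `K` to `ℚ`, which regards a smooth
projective scheme over `K` as one over `ℚ`: it preserves the motives `(X, e, n)` with `dim X ≤ d`, and
the Abel–Jacobi maps are the same up to isomorphism, by Shapiro's lemma. -/
structure IsRestriction {M' : Type u} [Category.{v} M'] [Preadditive M'] (T : AJData.{v, u, w} ℚ M)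
    (T' : AJData.{v, u, w} K M') (ρ : M' → M) : Prop where
  part : ∀ n d A, IsPart T' n d A → IsPart T n d (ρ A)
  shapiro : ∀ (p : Nat.Primes) (A : M'), InjectiveFor T' p A ↔ InjectiveFor T p (ρ A)

end Pool.Agent.H71.AR
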