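import Pool.Agent.H71.AR.AddDefs
import Pool.Agent.H71.AR.Lef
import Pool.Graph.R_pool_sql_team_seeded_1acbe0a2.Y691.TU.Ev

set_option autoImplicit false

/-!
# Additive properties of motives of odd weight
-/

open CategoryTheory CategoryTheory.Limits AlgebraicGeometry

namespace Pool.Agent.H71.AR

open Pool.Agent.Y116.UV Pool.Agent.Y101.Th Pool.Agent.Y691.TU Pool.Agent.Z125.UN

universe v u

variable {k : Type} [Field k] {C : Type u} [Category.{v} C] [Abelian C] {D : Graded k C}
  {Pure : C → ℤ → Prop} {R : C → Prop}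

lemma pure_tw (hP : IsWeight D Pure) (A : C) (w : ℤ) :
    ∀ n : ℕ, Pure (tw D.L n A) (w + 2 * n) ↔ Pure A w
  | 0 => by
    have h : w + 2 * ((0 : ℕ) : ℤ) = w := by simp
    rw [h]
    exact Iff.rfl
  | n + 1 => by
    have h : w + 2 * ((n + 1 : ℕ) : ℤ) = (w + 2 * n) + 2 := by
      push_cast
      ring
    rw [h]
    exact (hP.twist _ _).trans (pure_tw hP A w n)

lemma pure_isTwist (hP : IsWeight D Pure) {A B : C} {w : ℤ} (h : IsTwist D.L A B)
    (hA : Pure A w) : ∃ v : ℤ, Even (v - w) ∧ Pure B v := by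
  obtain ⟨a, b, e⟩ := h
  refine ⟨w + 2 * b - 2 * a, ⟨b - a, by ring⟩, ?_⟩
  have h1 := (pure_tw hP A w b).mpr hA
  have h2 := hP.iso _ _ _ (e.map Iso.symm) h1
  rw [← pure_tw hP B _ a]
  have h3 : w + 2 * (b : ℤ) - 2 * a + 2 * a = w + 2 * b := by ring
  rw [h3]
  exact h2

/-- The property `R` is only a condition for the motives of odd weight. -/
def OddOnly (Pure : C → ℤ → Prop) (R : C → Prop) : Prop :=
  ∀ (A : C) (w : ℤ), Even w → Pure A w → R A

/-- a direct summand of a twist -/
lemma even_every' (hP : IsWeight D Pure) (hR : OddOnly Pure R) {X : Sch k} (hX : SmProj X)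
    {i : ℤ} (hi : Even i) : Every D.L R (D.H X i i) := by
  intro B B' s r h ht
  obtain ⟨v, hv, hB⟩ := pure_isTwist hP ht (hP.summand _ _ _ ⟨s, r, h⟩ (hP.proj X hX i))
  refine hR B' v ?_ hB
  have h2 : v = (v - i) + i := by ring
  rw [h2]
  exact hv.add hi

/-- The stable property. -/
lemma stable_every_odd (hC : Semisimple C) [D.L.IsEquivalence] (hR : Additive R) :
    Stable D (fun w A => Odd w → Every D.L R A) where
  zero w A hA _ := every_zero hR hA
  sum w A B hA hB hw := every_sum hC hR (hA hw) (hB hw)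
  summand w A B s r h hB hw := every_summand s r h (hB hw)
  twist w A := by
    have h1 : Odd (w + 2) ↔ Odd w := by
      rw [Int.odd_add]
      simp
    rw [h1, every_twist]
  unit h := by
    exact absurd h (by decide)

/-- Additive properties of motives of odd weight, dimension by dimension. -/
theorem oddOnly_dim [PerfectField k] (hf : IsFrac k) (hC : Semisimple C) (hD : IsCoh D)
    [D.L.IsEquivalence] (hP : IsWeight D Pure) (hR : Additive R) (hO : OddOnly Pure R) (n : ℕ) :
    (∀ X : Sch k, SmProj X → topologicalKrullDim X.left ≤ n → ∀ i, Every D.L R (D.H X i i)) ↔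
      ∀ (N : Type) [CommRing N] [IsDomain N] [Algebra k N] [Algebra.Smooth k N], ArrAlg k N →
        ∀ m : ℕ, Odd m → m ≤ n → ringKrullDim N = m → Every D.L R (D.H (aff k N) m m) := by
  have h1 := mid_dim hf hC hD (stable_every_odd (D := D) hC hR) n
  constructor
  · intro h N _ _ _ _ hN m hm hmn hd
    refine h1.mp (fun X hX hX' i _ => h X hX hX' i) N hN m hmn hd ?_
    exact_mod_cast hm
  · intro h X hX hX' i
    rcases Int.even_or_odd i with hi | hi
    · exact even_every' hP hO hX hi
    · exact h1.mpr (fun N _ _ _ _ hN m hmn hd hm => h N hN m (by exact_mod_cast hm) hmn hd)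
        X hX hX' i hi

/-- Additive properties of motives of odd weight. -/
theorem oddOnly_all [PerfectField k] (hf : IsFrac k) (hC : Semisimple C) (hD : IsCoh D)
    [D.L.IsEquivalence] (hG : ∀ M : C, Gen D M) (hP : IsWeight D Pure) (hR : Additive R)
    (hO : OddOnly Pure R) :
    (∀ M : C, R M) ↔
      ∀ (N : Type) [CommRing N] [IsDomain N] [Algebra k N] [Algebra.Smooth k N], ArrAlg k N →
        ∀ m : ℕ, Odd m → ringKrullDim N = m → Every D.L R (D.H (aff k N) m m) := by
  have h1 := mid_all hf hC hD (stable_every_odd (D := D) hC hR)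
  rw [all_every hC hG hR]
  constructor
  · intro h N _ _ _ _ hN m hm hd
    refine h1.mp (fun X hX i _ => h X hX i) N hN m hd ?_
    exact_mod_cast hm
  · intro h X hX i
    rcases Int.even_or_odd i with hi | hi
    · exact even_every' hP hO hX hi
    · exact h1.mpr (fun N _ _ _ _ hN m hd hm => h N hN m (by exact_mod_cast hm) hd) X hX i hi

end Pool.Agent.H71.AR
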