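import Pool.Agent.H71.AR.LefDefs
import Pool.Graph.R_pool_sql_team_seeded_1acbe0a2.Y691.TU.EvDefs

set_option autoImplicit false

/-!
# Purity
-/

open CategoryTheory CategoryTheory.Limits AlgebraicGeometry

namespace Pool.Agent.H71.AR

open Pool.Agent.Y116.UV Pool.Agent.Y101.Th Pool.Agent.Y691.TU

universe v u

/-- Known properties of the relation `Pure M w` (the motive `M` is pure of weight `w`): it depends only
on the isomorphism class, it passes to direct sums and direct summands, the Tate twist `A ↦ A(-1)`
shifts the weight by two, a motive which is pure of two different weights is zero, and `H^i(X)` is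
pure of weight `i` for smooth projective `X`. -/
structure IsWeight {k : Type} [Field k] {C : Type u} [Category.{v} C] [Abelian C] (D : Graded k C)
    (Pure : C → ℤ → Prop) : Prop where
  iso : ∀ (A B : C) (w : ℤ), Nonempty (A ≅ B) → Pure A w → Pure B w
  summand : ∀ (A B : C) (w : ℤ), Summand A B → Pure B w → Pure A w
  sum : ∀ (A B : C) (w : ℤ), Pure A w → Pure B w → Pure (A ⊞ B) w
  twist : ∀ (A : C) (w : ℤ), Pure (D.L.obj A) (w + 2) ↔ Pure A w
  unique : ∀ (A : C) (w w' : ℤ), w ≠ w' → Pure A w → Pure A w' → IsZero A
  proj : ∀ X : Sch k, SmProj X → ∀ i : ℤ, Pure (D.H X i i) i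

end Pool.Agent.H71.AR
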