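import Pool.Agent.H71.AR.Ker
import Pool.Agent.H71.AR.Opn

/-!
# The complex Abel–Jacobi map for schemes and Chow motives over the rational numbers: definitions
-/

set_option autoImplicit false

open CategoryTheory CategoryTheory.Limits AlgebraicGeometry

namespace Pool.Agent.H71.AR

open Pool.Agent.Y116.UV Pool.Agent.Y101.Th

universe v u

/-- Data: the groups `CHZ i X = CH^i(X)^0` of cycles homologous to zero, the intermediate Jacobians
`JZ i X = J^i(X_ℂ)` and the Abel–Jacobi maps of the schemes over `ℚ`; the motives `h(X)` in the category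
`M` of Chow motives over `ℚ` with rational coefficients; the extensions of `CH^i(X)^0 ⊗ ℚ`, of
`J^i(X_ℂ) ⊗ ℚ` and of the Abel–Jacobi maps to `M`. -/
structure BBData (M : Type u) [Category.{v} M] [Preadditive M] where
  /-- the groups `CH^i(X)^0` -/
  CHZ : ℕ → Sch ℚ → AddCommGrpCat.{0}
  /-- the intermediate Jacobians `J^i(X_ℂ)` -/
  JZ : ℕ → Sch ℚ → AddCommGrpCat.{0}
  /-- the Abel–Jacobi maps -/
  AJZ : ∀ i X, CHZ i X ⟶ JZ i X
  /-- the motive of a smooth proper scheme -/
  h : Sch ℚ → M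
  /-- the groups `CH^i(A)^0 ⊗ ℚ` of motives -/
  CH : ℕ → M ⥤ ModuleCat.{0} ℚ
  /-- the groups `J^i(A_ℂ) ⊗ ℚ` of motives -/
  J : ℕ → M ⥤ ModuleCat.{0} ℚ
  /-- the Abel–Jacobi maps of motives -/
  AJ : ∀ i, CH i ⟶ J i
  [additive : ∀ i, (CH i).Additive]

attribute [instance] BBData.additive

/-- `X` is smooth and proper over `ℚ`. -/
structure SmProper (X : Sch ℚ) : Prop where
  smooth : Smooth X.hom
  proper : IsProper X.hom

variable {M : Type u} [Category.{v} M] [Preadditive M]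

/-- The kernel of `CH^i(X)^0 ⟶ J^i(X_ℂ)` is a torsion group. -/
def KernelTorsion (T : BBData M) (i : ℕ) (X : Sch ℚ) : Prop :=
  ∀ z : T.CHZ i X, T.AJZ i X z = 0 → ∃ n : ℕ, n ≠ 0 ∧ n • z = 0

/-- The homomorphism `f` is the map `A ⟶ A ⊗ ℚ`, up to isomorphism: its kernel is the torsion subgroup,
and each element of the vector space `V` has a non-zero multiple in the image. -/
structure IsRational {A : AddCommGrpCat.{0}} {V : ModuleCat.{0} ℚ}
    (f : A ⟶ (forget₂ (ModuleCat.{0} ℚ) AddCommGrpCat.{0}).obj V) : Prop where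
  ker : ∀ a : A, f a = 0 → ∃ n : ℕ, n ≠ 0 ∧ n • a = 0
  im : ∀ v : (forget₂ (ModuleCat.{0} ℚ) AddCommGrpCat.{0}).obj V,
    ∃ (n : ℕ) (a : A), n ≠ 0 ∧ f a = n • v

/-- Known properties of these data.

* `rational`: for smooth proper `X` the Abel–Jacobi map of the motive `h(X)` is the Abel–Jacobi map of
  `X`, tensored with `ℚ`;
* `proper`: if `X` is smooth and proper then `h(X)` is a direct summand of `h(Y)` for a smooth
  projective scheme `Y` of dimension at most `dim X` (Chow's lemma and Hironaka's theorem). -/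
structure IsBB (T : BBData M) : Prop where
  rational : ∀ (i : ℕ) (X : Sch ℚ), SmProper X →
    ∃ (f : T.CHZ i X ⟶ (forget₂ (ModuleCat.{0} ℚ) AddCommGrpCat.{0}).obj ((T.CH i).obj (T.h X)))
      (g : T.JZ i X ⟶ (forget₂ (ModuleCat.{0} ℚ) AddCommGrpCat.{0}).obj ((T.J i).obj (T.h X))),
      IsRational f ∧ IsRational g ∧
        f ≫ (forget₂ (ModuleCat.{0} ℚ) AddCommGrpCat.{0}).map ((T.AJ i).app (T.h X)) =
          T.AJZ i X ≫ g
  proper : ∀ X : Sch ℚ, SmProper X → ∃ Y : Sch ℚ, SmProj Y ∧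
    topologicalKrullDim Y.left ≤ topologicalKrullDim X.left ∧
      ∃ (s : T.h X ⟶ T.h Y) (r : T.h Y ⟶ T.h X), s ≫ r = 𝟙 _

end Pool.Agent.H71.AR
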