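import Pool.Agent.H71.AR.BKDefs
import Pool.Agent.H71.AR.Add

set_option autoImplicit false

/-!
# The order of vanishing formula of Bloch and Kato is an additive property
-/

open CategoryTheory CategoryTheory.Limits AlgebraicGeometry

namespace Pool.Agent.H71.AR

open Pool.Agent.Y116.UV Pool.Agent.Y101.Th Pool.Agent.Y691.TU

universe v u

variable {k : Type} [Field k] {C : Type u} [Category.{v} C] [Abelian C] {D : Graded k C}
  {T : Arith C}

/-- the zero object is its own double -/
lemma zero_sum {A : C} (hA : IsZero A) : Nonempty (A ⊞ A ≅ A) := by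
  have h : IsZero (A ⊞ A) := by
    rw [IsZero.iff_id_eq_zero]
    apply biprod.hom_ext
    · exact hA.eq_of_tgt _ _
    · exact hA.eq_of_tgt _ _
  exact ⟨h.iso hA⟩

lemma h0_zero (hT : IsArith T D) (p : ℕ) {A : C} (hA : IsZero A) : T.h0 p A = 0 := by
  have h1 := hT.h0_sum p A A
  rw [hT.h0_iso p _ _ (zero_sum hA)] at h1
  omega

lemma h1_zero (hT : IsArith T D) (p : ℕ) {A : C} (hA : IsZero A) : T.h1 p A = 0 := by
  have h1 := hT.h1_sum p A A
  rw [hT.h1_iso p _ _ (zero_sum hA)] at h1
  omega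

lemma bk_zero (hT : IsArith T D) (A : C) (hA : IsZero A) : OrderFormula T A := by
  intro _
  refine ⟨hT.rational_zero A hA, 0, hT.order_zero A hA, fun p _ => ?_⟩
  rw [h0_zero hT p hA, h1_zero hT p hA]
  rfl

/-- The order of vanishing formula is additive. -/
lemma additive_bk (hT : IsArith T D) : Additive (OrderFormula T) where
  iso A B h hA := by
    intro hB
    have h' : Nonempty (B ≅ A) := h.map Iso.symm
    obtain ⟨h1, n, h2, h3⟩ := hA (hT.weight.iso _ _ _ h' hB)
    refine ⟨hT.rational_iso _ _ h h1, n, hT.order_iso _ _ _ h h2, fun p hp => ?_⟩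
    rw [← hT.h0_iso p _ _ h, ← hT.h1_iso p _ _ h]
    exact h3 p hp
  zero := bk_zero hT
  sum A B hA hB := by
    intro hAB
    have pA := hT.weight.summand A (A ⊞ B) (-1) ⟨biprod.inl, biprod.fst, biprod.inl_fst⟩ hAB
    have pB := hT.weight.summand B (A ⊞ B) (-1) ⟨biprod.inr, biprod.snd, biprod.inr_snd⟩ hAB
    obtain ⟨a1, m, a2, a3⟩ := hA pA
    obtain ⟨b1, n, b2, b3⟩ := hB pB
    refine ⟨hT.rational_sum _ _ a1 b1, m + n, hT.order_sum _ _ _ _ pA pB a2 b2, fun p hp => ?_⟩
    rw [hT.h0_sum, hT.h1_sum, a3 p hp, b3 p hp]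
    push_cast
    ring

/-- It is only a condition for the motives of odd weight. -/
lemma oddOnly_bk (hT : IsArith T D) : OddOnly T.Pure (OrderFormula T) := by
  intro A w hw hA h1
  refine bk_zero hT A (hT.weight.unique A w (-1) ?_ hA h1) h1
  rintro rfl
  exact absurd hw (by decide)

end Pool.Agent.H71.AR
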