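import Pool.Agent.H71.AR.AddDefs

set_option autoImplicit false

/-!
# The order of vanishing formula of Bloch and Kato: definitions
-/

open CategoryTheory CategoryTheory.Limits AlgebraicGeometry

namespace Pool.Agent.H71.AR

open Pool.Agent.Y116.UV Pool.Agent.Y101.Th Pool.Agent.Y691.TU

universe v u

/-- Arithmetic data of the motives `M` over `ℚ`: `Pure M w` says that `M` is pure of weight `w`;
`Rational M` says that the polynomials `det (1 - Frob_v T | M_ℓ^{I_v})` have rational coefficients
and do not depend on `ℓ`; `Order M n` says that `L(s, M)` has a meromorphic continuation to a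
neighbourhood of `s = 0` and that its order at `0` is `n`; `h0 p M` and `h1 p M` are the dimensions of
`H^0(ℚ, M_p)` and of the Bloch–Kato Selmer group `H^1_f(ℚ, M_p)` over `ℚ_p`. -/
structure Arith (C : Type u) where
  Pure : C → ℤ → Prop
  Rational : C → Prop
  Order : C → ℤ → Prop
  h0 : ℕ → C → ℕ
  h1 : ℕ → C → ℕ

/-- **The order of vanishing formula** for `M`: if `M` is pure of weight `-1`, then its local factors
are rational and independent of `ℓ`, its `L`-function continues meromorphically to a neighbourhood
of `0`, and its order there is `dim H^1_f(ℚ, M_p) - dim H^0(ℚ, M_p)` for all prime numbers `p`. -/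
def OrderFormula {C : Type u} (T : Arith C) (M : C) : Prop :=
  T.Pure M (-1) → T.Rational M ∧ ∃ n : ℤ, T.Order M n ∧
    ∀ p : ℕ, p.Prime → n = (T.h1 p M : ℤ) - (T.h0 p M : ℤ)

/-- Known properties: purity (`IsWeight`), and all data depend only on the isomorphism class and are
additive (the `L`-function is multiplicative) for direct sums of motives of weight `-1`. -/
structure IsArith {k : Type} [Field k] {C : Type u} [Category.{v} C] [Abelian C] (T : Arith C)
    (D : Graded k C) : Prop where
  weight : IsWeight D T.Pure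
  rational_iso : ∀ A B : C, Nonempty (A ≅ B) → T.Rational A → T.Rational B
  rational_zero : ∀ A : C, IsZero A → T.Rational A
  rational_sum : ∀ A B : C, T.Rational A → T.Rational B → T.Rational (A ⊞ B)
  order_iso : ∀ (A B : C) (n : ℤ), Nonempty (A ≅ B) → T.Order A n → T.Order B n
  order_zero : ∀ A : C, IsZero A → T.Order A 0
  order_sum : ∀ (A B : C) (m n : ℤ), T.Pure A (-1) → T.Pure B (-1) → T.Order A m → T.Order B n →
    T.Order (A ⊞ B) (m + n)
  h0_iso : ∀ (p : ℕ) (A B : C), Nonempty (A ≅ B) → T.h0 p A = T.h0 p B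
  h0_sum : ∀ (p : ℕ) (A B : C), T.h0 p (A ⊞ B) = T.h0 p A + T.h0 p B
  h1_iso : ∀ (p : ℕ) (A B : C), Nonempty (A ≅ B) → T.h1 p A = T.h1 p B
  h1_sum : ∀ (p : ℕ) (A B : C), T.h1 p (A ⊞ B) = T.h1 p A + T.h1 p B

end Pool.Agent.H71.AR
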