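import Pool.Agent.H71.AR.Gate
import Pool.Graph.R_pool_sql_team_seeded_9f66d723.W5h77.MR.Rep

set_option autoImplicit false

/-!
# Systems of equations and line arrangements

The lines of the projective plane with the equations `X = 0`, `Y = 0`, `Z = 0`, `X + Y + Z = 0`,
`X + x_i Y + y_i Z = 0` and `Y + z_j Z = 0`, given by their coefficient vectors, and the conditions
that three of them are concurrent (a determinant is zero) or not.
-/

open CategoryTheory AlgebraicGeometry MvPolynomial Pool.Agent.Y116.UV Pool.Agent.W5h77.MR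

namespace Pool.Agent.H71.AR

/-- The labels of the lines: four lines in general position, the lines `X + x_i Y + y_i Z = 0`, `i ∈ α`,
and the lines `Y + z_j Z = 0`, `j ∈ β`. -/
abbrev Lin (α β : Type) : Type := Fin 4 ⊕ (α ⊕ β)

/-- The variables `x_i`, `y_i` (`i ∈ α`) and `z_j` (`j ∈ β`). -/
abbrev Coe (α β : Type) : Type := (α ⊕ α) ⊕ β

/-- The coefficient vectors of the lines, for elements `x_i, y_i, z_j` of a ring. -/
def line {C α β : Type} [CommRing C] (c : Coe α β → C) : Lin α β → Fin 3 → C
  | Sum.inl k => ![![1, 0, 0], ![0, 1, 0], ![0, 0, 1], ![1, 1, 1]] k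
  | Sum.inr (Sum.inl i) => ![1, c (Sum.inl (Sum.inl i)), c (Sum.inl (Sum.inr i))]
  | Sum.inr (Sum.inr j) => ![0, 1, c (Sum.inr j)]

/-- The determinant of three of the coefficient vectors. -/
def ldet {C α β : Type} [CommRing C] (c : Coe α β → C) (t : Lin α β × Lin α β × Lin α β) : C :=
  Matrix.det (Matrix.of ![line c t.1, line c t.2.1, line c t.2.2])

lemma ldet_map {C D α β : Type} [CommRing C] [CommRing D] (f : C →+* D) (c : Coe α β → C)
    (t : Lin α β × Lin α β × Lin α β) : f (ldet c t) = ldet (fun v => f (c v)) t := by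
  have h : ∀ (p : Lin α β) (k : Fin 3), f (line c p k) = line (fun v => f (c v)) p k := by
    rintro (l | i | j) k
    · fin_cases l <;> fin_cases k <;> simp [line]
    · fin_cases k <;> simp [line]
    · fin_cases k <;> simp [line]
  simp only [ldet, Matrix.det_fin_three, Matrix.of_apply, Matrix.cons_val_zero, Matrix.cons_val_one,
    Matrix.cons_val, map_add, map_sub, map_mul, h]

/-- The generic determinants. -/
noncomputable def lgen (R α β : Type) [CommRing R] (t : Lin α β × Lin α β × Lin α β) :
    MvPolynomial (Coe α β) R :=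
  ldet X t

section sys

variable {V κ : Type}

/-- the labels of the lines of the first kind: four for each variable, one for each equation -/
abbrev La (V κ : Type) : Type := (V × Fin 4) ⊕ κ

/-- the labels of the lines of the second kind: one for each variable, and one more -/
abbrev Lb (V : Type) : Type := V ⊕ Unit

/-- the line `(1, x, y)` -/
def fs (i : La V κ) : Lin (La V κ) (Lb V) := Sum.inr (Sum.inl i)

/-- the line `(1, c, 0)` -/
def lp (v : V) : Lin (La V κ) (Lb V) := fs (Sum.inl (v, 0))

/-- the line `(1, c, c)` -/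
def ld (v : V) : Lin (La V κ) (Lb V) := fs (Sum.inl (v, 1))

/-- the line `(1, 1, c)` -/
def lu (v : V) : Lin (La V κ) (Lb V) := fs (Sum.inl (v, 2))

/-- the line `(1, 0, c)` -/
def lw (v : V) : Lin (La V κ) (Lb V) := fs (Sum.inl (v, 3))

/-- the line of an equation -/
def lq (k : κ) : Lin (La V κ) (Lb V) := fs (Sum.inr k)

/-- the line `(0, 1, c)` -/
def lz (v : V) : Lin (La V κ) (Lb V) := Sum.inr (Sum.inr (Sum.inl v))

/-- the line `(0, 1, 1)` -/
def l1 : Lin (La V κ) (Lb V) := Sum.inr (Sum.inr (Sum.inr ()))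

/-- a fixed line -/
def le (i : Fin 4) : Lin (La V κ) (Lb V) := Sum.inl i

/-- the conditions of an equation -/
def gcond (k : κ) : Gate V → Fin 3 → Lin (La V κ) (Lb V) × Lin (La V κ) (Lb V) × Lin (La V κ) (Lb V)
  | .zero w => ![(lp w, le 0, le 2), (lq k, le 0, le 1), (lq k, le 0, le 2)]
  | .one w => ![(lp w, le 3, le 2), (lq k, le 0, le 1), (lq k, le 0, le 2)]
  | .add u v w => ![(lq k, lp u, le 2), (lq k, lw v, l1), (lq k, ld w, le 1)]
  | .mul u v w => ![(lq k, lp u, le 2), (lq k, le 0, lz v), (lq k, ld w, le 1)]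

/-- the conditions of a variable -/
def vcond (v : V) : Fin 8 → Lin (La V κ) (Lb V) × Lin (La V κ) (Lb V) × Lin (La V κ) (Lb V) :=
  ![(lp v, le 0, le 1), (ld v, lp v, le 2), (ld v, le 0, le 3), (lu v, le 3, le 2),
    (lu v, ld v, le 1), (lz v, le 0, lu v), (lw v, le 0, le 2), (lw v, ld v, le 1)]

/-- all conditions -/
def cond (G : κ → Gate V) : Option ((V × Fin 8) ⊕ (κ × Fin 3)) →
    Lin (La V κ) (Lb V) × Lin (La V κ) (Lb V) × Lin (La V κ) (Lb V)
  | none => (l1, le 0, le 3)
  | some (Sum.inl (v, i)) => vcond v i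
  | some (Sum.inr (k, i)) => gcond k (G k) i

/-- the coordinates of the line of an equation -/
def gpt {C : Type} [CommRing C] (c : V → C) : Gate V → C × C
  | .zero _ => (0, 0)
  | .one _ => (0, 0)
  | .add u _ w => (c u, c w)
  | .mul u _ w => (c u, c w)

/-- the coordinates of the lines for a solution of the equations -/
def coord {C : Type} [CommRing C] (G : κ → Gate V) (c : V → C) : Coe (La V κ) (Lb V) → C
  | Sum.inl (Sum.inl (Sum.inl (v, i))) => ![c v, c v, 1, 0] i
  | Sum.inl (Sum.inr (Sum.inl (v, i))) => ![0, c v, c v, c v] i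
  | Sum.inl (Sum.inl (Sum.inr k)) => (gpt c (G k)).1
  | Sum.inl (Sum.inr (Sum.inr k)) => (gpt c (G k)).2
  | Sum.inr (Sum.inl v) => c v
  | Sum.inr (Sum.inr ()) => 1

section
variable {C : Type} [CommRing C] (d : Coe (La V κ) (Lb V) → C)

lemma line_e0 : line d (le 0) = ![1, 0, 0] := rfl
lemma line_e1 : line d (le 1) = ![0, 1, 0] := rfl
lemma line_e2 : line d (le 2) = ![0, 0, 1] := rfl
lemma line_e3 : line d (le 3) = ![1, 1, 1] := rfl
lemma line_lp (v : V) : line d (lp v) = ![1, d (Sum.inl (Sum.inl (Sum.inl (v, 0)))),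
    d (Sum.inl (Sum.inr (Sum.inl (v, 0))))] := rfl
lemma line_ld (v : V) : line d (ld v) = ![1, d (Sum.inl (Sum.inl (Sum.inl (v, 1)))),
    d (Sum.inl (Sum.inr (Sum.inl (v, 1))))] := rfl
lemma line_lu (v : V) : line d (lu v) = ![1, d (Sum.inl (Sum.inl (Sum.inl (v, 2)))),
    d (Sum.inl (Sum.inr (Sum.inl (v, 2))))] := rfl
lemma line_lw (v : V) : line d (lw v) = ![1, d (Sum.inl (Sum.inl (Sum.inl (v, 3)))),
    d (Sum.inl (Sum.inr (Sum.inl (v, 3))))] := rfl
lemma line_lq (k : κ) : line d (lq k) = ![1, d (Sum.inl (Sum.inl (Sum.inr k))),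
    d (Sum.inl (Sum.inr (Sum.inr k)))] := rfl
lemma line_lz (v : V) : line d (lz v) = ![0, 1, d (Sum.inr (Sum.inl v))] := rfl
lemma line_l1 : line d l1 = ![0, 1, d (Sum.inr (Sum.inr ()))] := rfl

end

/-- the lines given by a solution of the equations satisfy the conditions -/
lemma cond_coord {C : Type} [CommRing C] (G : κ → Gate V) (c : V → C) (h : ∀ k, (G k).Sat c)
    (o : Option ((V × Fin 8) ⊕ (κ × Fin 3))) : ldet (coord G c) (cond G o) = 0 := by
  rcases o with _ | ⟨v, i⟩ | ⟨k, i⟩
  · simp [ldet, cond, line_l1, line_e0, line_e3, Matrix.det_fin_three, coord]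
  · fin_cases i <;>
      simp [ldet, cond, vcond, line_e0, line_e1, line_e2, line_e3, line_lp, line_ld, line_lu,
        line_lw, line_lz, Matrix.det_fin_three, coord]
  · have hk := h k
    simp only [ldet, cond]
    cases hg : G k with
    | zero w =>
      rw [hg] at hk
      have hk' : c w = 0 := hk
      fin_cases i <;>
        simp [gcond, line_e0, line_e1, line_e2, line_lp, line_lq, Matrix.det_fin_three, coord, hg,
          gpt, hk']
    | one w =>
      rw [hg] at hk
      have hk' : c w = 1 := hk
      fin_cases i <;>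
        simp [gcond, line_e0, line_e1, line_e2, line_e3, line_lp, line_lq, Matrix.det_fin_three,
          coord, hg, gpt, hk']
    | add u v w =>
      rw [hg] at hk
      have hk' : c u + c v = c w := hk
      fin_cases i <;>
        simp [gcond, line_e1, line_e2, line_lp, line_lq, line_lw, line_l1,
          line_ld, Matrix.det_fin_three, coord, hg, gpt]
      linear_combination (-1 : C) * hk'
    | mul u v w =>
      rw [hg] at hk
      have hk' : c u * c v = c w := hk
      fin_cases i <;>
        simp [gcond, line_e0, line_e1, line_e2, line_lp, line_lq, line_lz,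
          line_ld, Matrix.det_fin_three, coord, hg, gpt]
      linear_combination (-1 : C) * hk'

/-- Conversely lines which satisfy the conditions are given by a solution of the equations. -/
lemma coord_cond {C : Type} [CommRing C] (G : κ → Gate V) (d : Coe (La V κ) (Lb V) → C)
    (h : ∀ o, ldet d (cond G o) = 0) :
    (∀ k, (G k).Sat fun v => d (Sum.inr (Sum.inl v))) ∧
    ∀ x, coord G (fun v => d (Sum.inr (Sum.inl v))) x = d x := by
  have h1 := h none
  simp only [ldet, cond, line_l1, line_e0, line_e3, Matrix.det_fin_three, Matrix.of_apply,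
    Matrix.cons_val_zero, Matrix.cons_val_one, Matrix.cons_val] at h1
  have hv := fun (v : V) (i : Fin 8) => h (some (Sum.inl (v, i)))
  have v0 := fun v => hv v 0
  have v1 := fun v => hv v 1
  have v2 := fun v => hv v 2
  have v3 := fun v => hv v 3
  have v4 := fun v => hv v 4
  have v5 := fun v => hv v 5
  have v6 := fun v => hv v 6
  have v7 := fun v => hv v 7
  simp only [ldet, cond, vcond, line_e0, line_e1, line_e2, line_e3, line_lp, line_ld, line_lu,
    line_lw, line_lz, Matrix.det_fin_three, Matrix.of_apply,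
    Matrix.cons_val_zero, Matrix.cons_val_one, Matrix.cons_val] at v0 v1 v2 v3 v4 v5 v6 v7
  have h1' : d (Sum.inr (Sum.inr ())) = 1 := by linear_combination h1
  have k0 : ∀ v, d (Sum.inl (Sum.inr (Sum.inl (v, 0)))) = 0 := fun v => by
    linear_combination v0 v
  have k1 : ∀ v, d (Sum.inl (Sum.inl (Sum.inl (v, 1)))) =
      d (Sum.inl (Sum.inl (Sum.inl (v, 0)))) := fun v => by
    linear_combination (-1 : C) * v1 v
  have k2 : ∀ v, d (Sum.inl (Sum.inr (Sum.inl (v, 1)))) =
      d (Sum.inl (Sum.inl (Sum.inl (v, 1)))) := fun v => by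
    linear_combination v2 v
  have k3 : ∀ v, d (Sum.inl (Sum.inl (Sum.inl (v, 2)))) = 1 := fun v => by
    linear_combination (-1 : C) * v3 v
  have k4 : ∀ v, d (Sum.inl (Sum.inr (Sum.inl (v, 2)))) =
      d (Sum.inl (Sum.inr (Sum.inl (v, 1)))) := fun v => by
    linear_combination v4 v
  have k5 : ∀ v, d (Sum.inr (Sum.inl v)) = d (Sum.inl (Sum.inr (Sum.inl (v, 2)))) := fun v => by
    have h2 := v5 v
    rw [k3 v] at h2
    linear_combination h2
  have k6 : ∀ v, d (Sum.inl (Sum.inl (Sum.inl (v, 3)))) = 0 := fun v => by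
    linear_combination (-1 : C) * v6 v
  have k7 : ∀ v, d (Sum.inl (Sum.inr (Sum.inl (v, 3)))) =
      d (Sum.inl (Sum.inr (Sum.inl (v, 1)))) := fun v => by
    linear_combination v7 v
  have z2 : ∀ v, d (Sum.inl (Sum.inr (Sum.inl (v, 2)))) = d (Sum.inr (Sum.inl v)) := fun v =>
    (k5 v).symm
  have z1 : ∀ v, d (Sum.inl (Sum.inr (Sum.inl (v, 1)))) = d (Sum.inr (Sum.inl v)) := fun v =>
    (k4 v).symm.trans (z2 v)
  have x1 : ∀ v, d (Sum.inl (Sum.inl (Sum.inl (v, 1)))) = d (Sum.inr (Sum.inl v)) := fun v =>
    (k2 v).symm.trans (z1 v)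
  have x0 : ∀ v, d (Sum.inl (Sum.inl (Sum.inl (v, 0)))) = d (Sum.inr (Sum.inl v)) := fun v =>
    (k1 v).symm.trans (x1 v)
  have z3 : ∀ v, d (Sum.inl (Sum.inr (Sum.inl (v, 3)))) = d (Sum.inr (Sum.inl v)) := fun v =>
    (k7 v).trans (z1 v)
  have key : ∀ k, (G k).Sat (fun v => d (Sum.inr (Sum.inl v))) ∧
      (gpt (fun v => d (Sum.inr (Sum.inl v))) (G k)).1 = d (Sum.inl (Sum.inl (Sum.inr k))) ∧
      (gpt (fun v => d (Sum.inr (Sum.inl v))) (G k)).2 = d (Sum.inl (Sum.inr (Sum.inr k))) := by
    intro k
    have g0 := h (some (Sum.inr (k, 0)))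
    have g1 := h (some (Sum.inr (k, 1)))
    have g2 := h (some (Sum.inr (k, 2)))
    simp only [cond] at g0 g1 g2
    cases hg : G k with
    | zero w =>
      rw [hg] at g0 g1 g2
      simp only [ldet, gcond, line_e0, line_e1, line_e2, line_lp, line_lq, Matrix.det_fin_three,
        Matrix.of_apply, Matrix.cons_val_zero, Matrix.cons_val_one, Matrix.cons_val, x0,
        k0] at g0 g1 g2
      refine ⟨?_, ?_, ?_⟩
      · change d (Sum.inr (Sum.inl w)) = 0
        linear_combination (-1 : C) * g0
      · change (0 : C) = _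
        linear_combination g2
      · change (0 : C) = _
        linear_combination (-1 : C) * g1
    | one w =>
      rw [hg] at g0 g1 g2
      simp only [ldet, gcond, line_e0, line_e1, line_e2, line_e3, line_lp, line_lq,
        Matrix.det_fin_three, Matrix.of_apply, Matrix.cons_val_zero, Matrix.cons_val_one,
        Matrix.cons_val, x0, k0] at g0 g1 g2
      refine ⟨?_, ?_, ?_⟩
      · change d (Sum.inr (Sum.inl w)) = 1
        linear_combination (-1 : C) * g0
      · change (0 : C) = _
        linear_combination g2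
      · change (0 : C) = _
        linear_combination (-1 : C) * g1
    | add u v w =>
      rw [hg] at g0 g1 g2
      simp only [ldet, gcond, line_e1, line_e2, line_lp, line_lq, line_lw, line_l1, line_ld,
        Matrix.det_fin_three, Matrix.of_apply, Matrix.cons_val_zero, Matrix.cons_val_one,
        Matrix.cons_val, x0, k0, k6, z3, h1', x1, z1] at g0 g1 g2
      refine ⟨?_, ?_, ?_⟩
      · change d (Sum.inr (Sum.inl u)) + d (Sum.inr (Sum.inl v)) = d (Sum.inr (Sum.inl w))
        linear_combination g0 - g1 + g2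
      · change d (Sum.inr (Sum.inl u)) = _
        linear_combination g0
      · change d (Sum.inr (Sum.inl w)) = _
        linear_combination (-1 : C) * g2
    | mul u v w =>
      rw [hg] at g0 g1 g2
      simp only [ldet, gcond, line_e0, line_e1, line_e2, line_lp, line_lq, line_lz, line_ld,
        Matrix.det_fin_three, Matrix.of_apply, Matrix.cons_val_zero, Matrix.cons_val_one,
        Matrix.cons_val, x0, k0, x1, z1] at g0 g1 g2
      refine ⟨?_, ?_, ?_⟩
      · change d (Sum.inr (Sum.inl u)) * d (Sum.inr (Sum.inl v)) = d (Sum.inr (Sum.inl w))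
        linear_combination d (Sum.inr (Sum.inl v)) * g0 - g1 + g2
      · change d (Sum.inr (Sum.inl u)) = _
        linear_combination g0
      · change d (Sum.inr (Sum.inl w)) = _
        linear_combination (-1 : C) * g2
  refine ⟨fun k => (key k).1, ?_⟩
  rintro (((⟨v, i⟩ | k) | (⟨v, i⟩ | k)) | (v | _))
  · fin_cases i
    · exact (x0 v).symm
    · exact (x1 v).symm
    · exact (k3 v).symm
    · exact (k6 v).symm
  · exact (key k).2.1
  · fin_cases i
    · exact (k0 v).symm
    · exact (z1 v).symm
    · exact (z2 v).symm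
    · exact (z3 v).symm
  · exact (key k).2.2
  · rfl
  · exact h1'.symm

variable {R : Type} [CommRing R]

/-- The algebra presented by a system of equations is the algebra of functions on a closed subscheme
of the space of line arrangements, given by the concurrence of some triples of lines. -/
theorem rep_gsys {B : Type} [CommRing B] [Algebra R B] (S : GSys R B) :
    ∃ (alg : Algebra (MvPolynomial (Coe (La S.V S.κ) (Lb S.V)) R) B)
      (_ : IsScalarTower R (MvPolynomial (Coe (La S.V S.κ) (Lb S.V)) R) B),
      @Rep _ _ _ (lgen R (La S.V S.κ) (Lb S.V)) (Set.range (cond S.G)) ∅ B _ alg := by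
  let φ : MvPolynomial (Coe (La S.V S.κ) (Lb S.V)) R →ₐ[R] B := aeval (coord S.G S.a)
  letI alg : Algebra (MvPolynomial (Coe (La S.V S.κ) (Lb S.V)) R) B := φ.toRingHom.toAlgebra
  have hφ : algebraMap (MvPolynomial (Coe (La S.V S.κ) (Lb S.V)) R) B = φ.toRingHom := rfl
  have hX : ∀ v, φ.toRingHom (X v) = coord S.G S.a v := fun v => aeval_X _ v
  refine ⟨alg, IsScalarTower.of_algebraMap_eq fun r => (φ.commutes r).symm, ?_, ?_, ?_, ?_⟩
  · rintro t ⟨o, rfl⟩
    rw [hφ, lgen, ldet_map]
    simp only [hX]
    exact cond_coord S.G S.a S.sat o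
  · intro t ht
    exact ht.elim
  · intro C _ f g hfg
    rw [hφ] at hfg
    refine S.ext C f g ?_ ?_
    · ext r
      have h1 := RingHom.congr_fun hfg (MvPolynomial.C r)
      have h2 : φ.toRingHom (MvPolynomial.C r) = algebraMap R B r := φ.commutes r
      rw [RingHom.comp_apply, RingHom.comp_apply, h2] at h1
      exact h1
    · intro v
      have h1 := RingHom.congr_fun hfg (X (Sum.inr (Sum.inl v)))
      rw [RingHom.comp_apply, RingHom.comp_apply, hX] at h1
      exact h1
  · intro C _ f hf _
    have h0 : ∀ o, ldet (fun v => f (X v)) (cond S.G o) = 0 := by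
      intro o
      rw [← ldet_map]
      exact hf _ ⟨o, rfl⟩
    obtain ⟨h1, h2⟩ := coord_cond S.G (fun v => f (X v)) h0
    obtain ⟨g, hg1, hg2⟩ := S.lift C (f.comp MvPolynomial.C) (fun v => f (X (Sum.inr (Sum.inl v)))) h1
    refine ⟨g, ?_⟩
    rw [hφ]
    apply MvPolynomial.ringHom_ext
    · intro r
      have h3 : φ.toRingHom (MvPolynomial.C r) = algebraMap R B r := φ.commutes r
      rw [RingHom.comp_apply, h3]
      exact RingHom.congr_fun hg1 r
    · intro x
      rw [RingHom.comp_apply, hX, ← h2 x]
      have h4 : ∀ v, g (S.a v) = f (X (Sum.inr (Sum.inl v))) := hg2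
      rcases x with (((⟨v, i⟩ | k) | (⟨v, i⟩ | k)) | (v | _))
      · fin_cases i
        · exact h4 v
        · exact h4 v
        · exact map_one g
        · exact map_zero g
      · cases hg : S.G k with
        | zero w => simp [coord, gpt, hg]
        | one w => simp [coord, gpt, hg]
        | add u v w => simp [coord, gpt, hg, h4]
        | mul u v w => simp [coord, gpt, hg, h4]
      · fin_cases i
        · exact map_zero g
        · exact h4 v
        · exact h4 v
        · exact h4 v
      · cases hg : S.G k with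
        | zero w => simp [coord, gpt, hg]
        | one w => simp [coord, gpt, hg]
        | add u v w => simp [coord, gpt, hg, h4]
        | mul u v w => simp [coord, gpt, hg, h4]
      · exact h4 v
      · exact map_one g

end sys

end Pool.Agent.H71.AR
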