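import Pool.Graph.R_pool_sql_team_seeded_1acbe0a2.Z125.UN.Prime

set_option autoImplicit false

/-!
# Arithmetic circuits which present an algebra

Every algebra of finite type over a noetherian ring all of whose elements are fractions of integers
is given by a finite system of equations of the forms `w = 0`, `w = 1`, `u + v = w` and `u * v = w`.
-/

open MvPolynomial

namespace Pool.Agent.H71.AR

/-- An equation between the variables in `V`: `w = 0`, `w = 1`, `u + v = w` or `u * v = w`. -/
inductive Gate (V : Type) where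
  | zero (w : V) : Gate V
  | one (w : V) : Gate V
  | add (u v w : V) : Gate V
  | mul (u v w : V) : Gate V

/-- The elements `c v` satisfy the equation. -/
def Gate.Sat {V C : Type} [CommRing C] (c : V → C) : Gate V → Prop
  | .zero w => c w = 0
  | .one w => c w = 1
  | .add u v w => c u + c v = c w
  | .mul u v w => c u * c v = c w

/-- Renaming the variables. -/
def Gate.map {V W : Type} (f : V → W) : Gate V → Gate W
  | .zero w => .zero (f w)
  | .one w => .one (f w)
  | .add u v w => .add (f u) (f v) (f w)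
  | .mul u v w => .mul (f u) (f v) (f w)

lemma Gate.sat_map {V W C : Type} [CommRing C] (f : V → W) (c : W → C) (g : Gate V) :
    (g.map f).Sat c ↔ g.Sat fun v => c (f v) := by
  cases g <;> rfl

lemma Gate.Sat.hom {V C D : Type} [CommRing C] [CommRing D] {c : V → C} {g : Gate V}
    (h : g.Sat c) (f : C →+* D) : g.Sat fun v => f (c v) := by
  cases g with
  | zero w => exact (congrArg f (show c w = 0 from h)).trans (map_zero f)
  | one w => exact (congrArg f (show c w = 1 from h)).trans (map_one f)
  | add u v w => exact (map_add f _ _).symm.trans (congrArg f (show c u + c v = c w from h))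
  | mul u v w => exact (map_mul f _ _).symm.trans (congrArg f (show c u * c v = c w from h))

/-- A presentation of the `R`-algebra `A` by a finite system of equations (universal property). -/
structure GSys (R A : Type) [CommRing R] [CommRing A] [Algebra R A] where
  V : Type
  κ : Type
  finV : Finite V
  finκ : Finite κ
  G : κ → Gate V
  a : V → A
  sat : ∀ k, (G k).Sat a
  lift : ∀ (C : Type) [CommRing C] (f : R →+* C) (c : V → C), (∀ k, (G k).Sat c) →
    ∃ h : A →+* C, h.comp (algebraMap R A) = f ∧ ∀ v, h (a v) = c v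
  ext : ∀ (C : Type) [CommRing C] (h h' : A →+* C),
    h.comp (algebraMap R A) = h'.comp (algebraMap R A) → (∀ v, h (a v) = h' (a v)) → h = h'

variable {R A : Type} [CommRing R] [CommRing A] [Algebra R A]

/-- The elements which are values of variables. -/
def GSys.marks (S : GSys R A) : Set A := Set.range S.a

/-- The polynomial ring. -/
noncomputable def base (R : Type) [CommRing R] (n : ℕ) : GSys R (MvPolynomial (Fin n) R) where
  V := Fin n
  κ := Empty
  finV := inferInstance
  finκ := inferInstance
  G := Empty.elim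
  a := X
  sat k := k.elim
  lift C _ f c _ := ⟨eval₂Hom f c, by
    ext r
    simp [MvPolynomial.algebraMap_eq], fun v => eval₂Hom_X' f c v⟩
  ext C _ h h' h1 h2 := MvPolynomial.ringHom_ext (fun r => RingHom.congr_fun h1 r) h2

/-- One more variable. -/
noncomputable def GSys.extend (S : GSys R A) (b : A) (g : Gate (Option S.V))
    (h1 : g.Sat fun o => o.elim b S.a)
    (h2 : ∀ (C : Type) [CommRing C] (h : A →+* C) (t : C),
      (g.Sat fun o => o.elim t fun v => h (S.a v)) → h b = t) : GSys R A where
  V := Option S.V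
  κ := Option S.κ
  finV := by
    have := S.finV
    infer_instance
  finκ := by
    have := S.finκ
    infer_instance
  G o := o.elim g fun k => (S.G k).map some
  a o := o.elim b S.a
  sat := by
    rintro (_ | k)
    · exact h1
    · exact (Gate.sat_map some _ _).2 (S.sat k)
  lift C _ f c hc := by
    obtain ⟨h, hf, hv⟩ := S.lift C f (fun v => c (some v)) fun k =>
      (Gate.sat_map some c _).1 (hc (some k))
    refine ⟨h, hf, ?_⟩
    rintro (_ | v)
    · refine h2 C h (c none) ?_
      have h3 : (fun o : Option S.V => (o.elim (c none) fun v => h (S.a v) : C)) = c := by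
        funext o
        cases o with
        | none => rfl
        | some v => exact hv v
      rw [h3]
      exact hc none
    · exact hv v
  ext C _ h h' h3 h4 := S.ext C h h' h3 fun v => h4 (some v)

lemma marks_extend (S : GSys R A) (b : A) (g : Gate (Option S.V)) (h1 h2) :
    S.marks ⊆ (S.extend b g h1 h2).marks ∧ b ∈ (S.extend b g h1 h2).marks := by
  refine ⟨?_, none, rfl⟩
  rintro _ ⟨v, rfl⟩
  exact ⟨some v, rfl⟩

/-- The elements which can be reached. -/
def Reach (S₀ : GSys R A) : Set A :=
  {x | ∀ S : GSys R A, S₀.marks ⊆ S.marks → ∃ S' : GSys R A, S.marks ⊆ S'.marks ∧ x ∈ S'.marks}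

variable {S₀ : GSys R A}

lemma reach_mark {x : A} (h : x ∈ S₀.marks) : x ∈ Reach S₀ := fun S hS => ⟨S, le_rfl, hS h⟩

lemma reach_zero : (0 : A) ∈ Reach S₀ := by
  intro S _
  refine ⟨S.extend 0 (.zero none) rfl ?_, marks_extend _ _ _ _ _⟩
  intro C _ h t ht
  exact (map_zero h).trans (show t = 0 from ht).symm

lemma reach_one : (1 : A) ∈ Reach S₀ := by
  intro S _
  refine ⟨S.extend 1 (.one none) rfl ?_, marks_extend _ _ _ _ _⟩
  intro C _ h t ht
  exact (map_one h).trans (show t = 1 from ht).symm

lemma reach_two {x y z : A} (hx : x ∈ Reach S₀) (hy : y ∈ Reach S₀)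
    (h : ∀ S : GSys R A, x ∈ S.marks → y ∈ S.marks →
      ∃ S' : GSys R A, S.marks ⊆ S'.marks ∧ z ∈ S'.marks) : z ∈ Reach S₀ := by
  intro S hS
  obtain ⟨S1, h1, h2⟩ := hx S hS
  obtain ⟨S2, h3, h4⟩ := hy S1 (hS.trans h1)
  obtain ⟨S3, h5, h6⟩ := h S2 (h3 h2) h4
  exact ⟨S3, (h1.trans h3).trans h5, h6⟩

lemma reach_add {x y : A} (hx : x ∈ Reach S₀) (hy : y ∈ Reach S₀) : x + y ∈ Reach S₀ := by
  refine reach_two hx hy ?_
  rintro S ⟨u, rfl⟩ ⟨v, rfl⟩
  refine ⟨S.extend (S.a u + S.a v) (.add (some u) (some v) none) rfl ?_,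
    marks_extend _ _ _ _ _⟩
  intro C _ h t ht
  exact (map_add h _ _).trans (show h (S.a u) + h (S.a v) = t from ht)

lemma reach_mul {x y : A} (hx : x ∈ Reach S₀) (hy : y ∈ Reach S₀) : x * y ∈ Reach S₀ := by
  refine reach_two hx hy ?_
  rintro S ⟨u, rfl⟩ ⟨v, rfl⟩
  refine ⟨S.extend (S.a u * S.a v) (.mul (some u) (some v) none) rfl ?_,
    marks_extend _ _ _ _ _⟩
  intro C _ h t ht
  exact (map_mul h _ _).trans (show h (S.a u) * h (S.a v) = t from ht)

lemma reach_neg {x : A} (hx : x ∈ Reach S₀) : -x ∈ Reach S₀ := by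
  refine reach_two hx reach_zero ?_
  rintro S ⟨u, rfl⟩ ⟨v, hv⟩
  refine ⟨S.extend _ (.add (some u) none (some v)) ?_ ?_, marks_extend _ _ _ _ _⟩
  · change S.a u + -S.a u = S.a v
    rw [hv, add_neg_cancel]
  · intro C _ h t ht
    have h1 : h (S.a u) + t = h (S.a v) := ht
    rw [hv, map_zero] at h1
    rw [map_neg]
    exact neg_eq_of_add_eq_zero_right h1

lemma reach_int (k : ℤ) : (k : A) ∈ Reach S₀ := by
  induction k using Int.induction_on with
  | zero =>
    rw [Int.cast_zero]
    exact reach_zero
  | succ k hk =>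
    rw [Int.cast_add, Int.cast_one]
    exact reach_add hk reach_one
  | pred k hk =>
    rw [Int.cast_sub, Int.cast_one, sub_eq_add_neg]
    exact reach_add hk (reach_neg reach_one)

open Pool.Agent.Z125.UN in
lemma reach_const (hR : IsFrac R) (r : R) : algebraMap R A r ∈ Reach S₀ := by
  obtain ⟨d, n, hd, hn⟩ := hR r
  refine reach_two (reach_int d) (reach_int n) ?_
  rintro S ⟨u, hu⟩ ⟨v, hv⟩
  have h0 : (d : A) * algebraMap R A r = n := by
    have h1 := congrArg (algebraMap R A) hn
    rw [map_mul, map_intCast, map_intCast] at h1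
    exact h1
  refine ⟨S.extend _ (.mul (some u) none (some v)) ?_ ?_, marks_extend _ _ _ _ _⟩
  · change S.a u * algebraMap R A r = S.a v
    rw [hu, hv, h0]
  · intro C _ h t ht
    have h1 : h (S.a u) * t = h (S.a v) := ht
    rw [hu, hv] at h1
    have h2 : h (d : A) * h (algebraMap R A r) = h (n : A) := by rw [← map_mul, h0]
    have h3 : IsUnit (h (d : A)) := by
      have h4 := (hd.map (algebraMap R A)).map h
      rw [map_intCast] at h4
      exact h4
    exact h3.mul_left_cancel (h2.trans h1.symm)

open Pool.Agent.Z125.UN in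
lemma reach_all (hR : IsFrac R) (n : ℕ) (f : MvPolynomial (Fin n) R) : f ∈ Reach (base R n) := by
  induction f using MvPolynomial.induction_on with
  | C r => exact reach_const hR r
  | add p q hp hq => exact reach_add hp hq
  | mul_X p i hp => exact reach_mul hp (reach_mark ⟨i, rfl⟩)

open Pool.Agent.Z125.UN in
lemma reach_set (hR : IsFrac R) (n : ℕ) (F : Finset (MvPolynomial (Fin n) R)) :
    ∃ S : GSys R (MvPolynomial (Fin n) R), (base R n).marks ⊆ S.marks ∧ ∀ f ∈ F, f ∈ S.marks := by
  classical
  induction F using Finset.induction_on with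
  | empty => exact ⟨base R n, le_rfl, by simp⟩
  | insert f F _ ih =>
    obtain ⟨S, h1, h2⟩ := ih
    obtain ⟨S', h3, h4⟩ := reach_all hR n f S h1
    refine ⟨S', h1.trans h3, fun g hg => ?_⟩
    rcases Finset.mem_insert.mp hg with rfl | hg
    · exact h4
    · exact h3 (h2 g hg)

/-- Quotients. -/
noncomputable def GSys.quot (S : GSys R A) (F : Finset A) (hF : ∀ f ∈ F, f ∈ S.marks) :
    GSys R (A ⧸ Ideal.span (F : Set A)) where
  V := S.V
  κ := S.κ ⊕ F
  finV := S.finV
  finκ := by
    have := S.finκ
    infer_instance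
  G := Sum.elim S.G fun f => .zero (hF f f.2).choose
  a v := Ideal.Quotient.mk _ (S.a v)
  sat := by
    rintro (k | f)
    · exact (S.sat k).hom _
    · change Ideal.Quotient.mk _ (S.a (hF f f.2).choose) = 0
      rw [(hF f f.2).choose_spec]
      exact Ideal.Quotient.eq_zero_iff_mem.2 (Ideal.subset_span f.2)
  lift C _ f c hc := by
    obtain ⟨h, hf, hv⟩ := S.lift C f c fun k => hc (Sum.inl k)
    have h0 : ∀ x ∈ Ideal.span (F : Set A), h x = 0 := by
      intro x hx
      have h1 : Ideal.span (F : Set A) ≤ RingHom.ker h := by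
        rw [Ideal.span_le]
        intro y hy
        have h2 : c (hF y hy).choose = 0 := hc (Sum.inr ⟨y, hy⟩)
        rw [← hv, (hF y hy).choose_spec] at h2
        exact h2
      exact h1 hx
    refine ⟨Ideal.Quotient.lift _ h h0, ?_, ?_⟩
    · rw [← hf]
      rfl
    · intro v
      rw [Ideal.Quotient.lift_mk]
      exact hv v
  ext C _ h h' h1 h2 := by
    apply Ideal.Quotient.ringHom_ext
    exact S.ext C _ _ h1 h2

/-- Isomorphic algebras. -/
def GSys.congr {B : Type} [CommRing B] [Algebra R B] (S : GSys R A) (e : A ≃ₐ[R] B) : GSys R B where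
  V := S.V
  κ := S.κ
  finV := S.finV
  finκ := S.finκ
  G := S.G
  a v := e (S.a v)
  sat k := (S.sat k).hom (e : A →+* B)
  lift C _ f c hc := by
    obtain ⟨h, hf, hv⟩ := S.lift C f c hc
    refine ⟨h.comp (e.symm : B →+* A), ?_, ?_⟩
    · rw [← hf]
      ext r
      change h (e.symm (algebraMap R B r)) = _
      rw [e.symm.commutes]
      rfl
    · intro v
      change h (e.symm (e (S.a v))) = _
      rw [e.symm_apply_apply]
      exact hv v
  ext C _ h h' h1 h2 := by
    have h3 : h.comp (e : A →+* B) = h'.comp (e : A →+* B) := by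
      refine S.ext C _ _ ?_ h2
      ext r
      change h (e (algebraMap R A r)) = h' (e (algebraMap R A r))
      rw [e.commutes]
      exact RingHom.congr_fun h1 r
    ext b
    have h4 := RingHom.congr_fun h3 (e.symm b)
    change h (e (e.symm b)) = h' (e (e.symm b)) at h4
    rwa [e.apply_symm_apply] at h4

open Pool.Agent.Z125.UN in
/-- Every algebra of finite type is given by a finite system of equations. -/
theorem exists_gsys [IsNoetherianRing R] (hR : IsFrac R) (A : Type) [CommRing A] [Algebra R A]
    [Algebra.FiniteType R A] : Nonempty (GSys R A) := by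
  classical
  obtain ⟨n, π, hπ⟩ := Algebra.FiniteType.iff_quotient_mvPolynomial''.mp
    (inferInstance : Algebra.FiniteType R A)
  obtain ⟨F, hF⟩ := (isNoetherianRing_iff_ideal_fg _).mp
    (inferInstance : IsNoetherianRing (MvPolynomial (Fin n) R)) (RingHom.ker π)
  obtain ⟨S, _, h2⟩ := reach_set hR n F
  have e1 : (MvPolynomial (Fin n) R ⧸ Ideal.span (F : Set (MvPolynomial (Fin n) R))) ≃ₐ[R]
      (MvPolynomial (Fin n) R ⧸ RingHom.ker π) := Ideal.quotientEquivAlgOfEq R hF
  have e2 : (MvPolynomial (Fin n) R ⧸ RingHom.ker π) ≃ₐ[R] A :=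
    Ideal.quotientKerAlgEquivOfSurjective hπ
  exact ⟨(S.quot F h2).congr (e1.trans e2)⟩

end Pool.Agent.H71.AR
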