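import Pool.Agent.H71.AR.Wt

/-!
# Kernels and cokernels of natural transformations, and weight complexes
-/

set_option autoImplicit false

open CategoryTheory CategoryTheory.Limits AlgebraicGeometry

namespace Pool.Agent.H71.AR

open Pool.Agent.Y116.UV Pool.Agent.Y101.Th Pool.Agent.Z125.UN

universe v u v' u'

section

variable {M : Type u} [Category.{v} M] [Preadditive M] {A : Type u'} [Category.{v'} A] [Abelian A]
  {G J : M ⥤ A} (α : G ⟶ J)

instance additive_kernel [G.Additive] : (kernel α).Additive where
  map_add {X Y f g} := by
    rw [← cancel_mono ((kernel.ι α).app Y), Preadditive.add_comp, NatTrans.naturality,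
      NatTrans.naturality, NatTrans.naturality, G.map_add, Preadditive.comp_add]

instance additive_cokernel [J.Additive] : (cokernel α).Additive where
  map_add {X Y f g} := by
    rw [← cancel_epi ((cokernel.π α).app X), Preadditive.comp_add, ← NatTrans.naturality,
      ← NatTrans.naturality, ← NatTrans.naturality, J.map_add, Preadditive.add_comp]

lemma isZero_kernel (X : M) : IsZero ((kernel α).obj X) ↔ Mono (α.app X) := by
  have e : (kernel α).obj X ≅ kernel (α.app X) :=
    PreservesKernel.iso ((evaluation M A).obj X) α
  rw [Preadditive.mono_iff_isZero_kernel]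
  exact e.isZero_iff

lemma isZero_cokernel (X : M) : IsZero ((cokernel α).obj X) ↔ Epi (α.app X) := by
  have e : (cokernel α).obj X ≅ cokernel (α.app X) :=
    PreservesCokernel.iso ((evaluation M A).obj X) α
  rw [Preadditive.epi_iff_isZero_cokernel]
  exact e.isZero_iff

/-- direct summands -/
lemma mono_retract {X Y : M} (s : X ⟶ Y) (r : Y ⟶ X) (h : s ≫ r = 𝟙 X) (hY : Mono (α.app Y)) :
    Mono (α.app X) := by
  have h1 : G.map s ≫ G.map r = 𝟙 _ := by
    rw [← CategoryTheory.Functor.map_comp, h, CategoryTheory.Functor.map_id]
  have h2 : Mono (G.map s) := by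
    have : Mono (G.map s ≫ G.map r) := by rw [h1]; infer_instance
    exact mono_of_mono _ (G.map r)
  have h3 : Mono (α.app X ≫ J.map s) := by
    rw [← NatTrans.naturality]
    infer_instance
  exact mono_of_mono _ (J.map s)

end

end Pool.Agent.H71.AR
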