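import Pool.Graph.R_pool_sql_team_seeded_1acbe0a2.Y691.TU.Defs

set_option autoImplicit false

/-!
# Weight graded cohomology with compact supports: the properties which are used
-/

open CategoryTheory CategoryTheory.Limits AlgebraicGeometry

namespace Pool.Agent.H71.AR

open Pool.Agent.Y116.UV Pool.Agent.Y101.Th Pool.Agent.Y691.TU

universe v u

/-- `A` is a direct summand of `B`. -/
def Summand {C : Type u} [Category.{v} C] (A B : C) : Prop :=
  ∃ (s : A ⟶ B) (r : B ⟶ A), s ≫ r = 𝟙 A

variable {k : Type} [Field k] {C : Type u} [Category.{v} C] [Abelian C]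

/-- The setting. `H X w j = gr^W_w H^j_c(X)` is the piece of weight `w` of the cohomology with compact
supports of degree `j` of the separated scheme `X` of finite type over a field `k` of characteristic
zero, an object of the semisimple category `C` of pure motives (for instance motives for absolute
Hodge cycles), and `L` is the Tate twist `A ↦ A(-1)`. Known properties:

* `iso`: isomorphic schemes have isomorphic pieces;
* `localization`: for a closed subscheme `Z` of `X` with the complement `U` the sequence
  `… → H U w n → H X w n → H Z w n → H U w (n + 1) → …` is exact for every weight `w`;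
* `empty`: the empty scheme has no cohomology;
* `weights`: the cohomology with compact supports of degree `n` has weights at most `n`;
* `compact`: the pure part `H X i i` is a direct summand of `H^i(Y)` for a smooth projective scheme `Y`
  with `dim Y ≤ dim X` (a resolution of singularities of a compactification);
* `weak` (the weak Lefschetz theorem): if `X` is smooth projective of dimension at most `m` and
  `i < m`, then `H^i(X)` is a direct summand of `H^i(Y)` for a smooth projective scheme `Y` of
  dimension less than `m` (hyperplane sections of the components of dimension `m`);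
* `hard` (the hard Lefschetz theorem): if `X` is smooth projective of dimension at most `m` and
  `m < i`, then `H^i(X)` is a direct summand of `H^(i-2)(X)(-1)`. -/
structure IsCoh (D : Graded k C) : Prop where
  iso : ∀ {X Y : Sch k}, FT True X → Nonempty (X ≅ Y) → ∀ w n, Nonempty (D.H X w n ≅ D.H Y w n)
  localization : ∀ {Z X U : Sch k} (i : Z ⟶ X) (j : U ⟶ X), FT True X → IsTriple i j → ∀ w : ℤ,
    ∃ (a : ∀ n, D.H U w n ⟶ D.H X w n) (b : ∀ n, D.H X w n ⟶ D.H Z w n)
      (d : ∀ n, D.H Z w n ⟶ D.H U w (n + 1)),
      ∀ n, ExactAt (a n) (b n) ∧ ExactAt (b n) (d n) ∧ ExactAt (d n) (a (n + 1))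
  empty : ∀ X : Sch k, IsEmpty X.left → ∀ w n, IsZero (D.H X w n)
  weights : ∀ X : Sch k, FT True X → ∀ w n : ℤ, n < w → IsZero (D.H X w n)
  compact : ∀ X : Sch k, FT True X → ∀ i : ℤ, ∃ Y : Sch k, SmProj Y ∧
    topologicalKrullDim Y.left ≤ topologicalKrullDim X.left ∧ Summand (D.H X i i) (D.H Y i i)
  weak : ∀ (X : Sch k) (m : ℕ), SmProj X → topologicalKrullDim X.left ≤ m → ∀ i : ℤ, i < m →
    ∃ Y : Sch k, SmProj Y ∧ topologicalKrullDim Y.left < m ∧ Summand (D.H X i i) (D.H Y i i)
  hard : ∀ (X : Sch k) (m : ℕ), SmProj X → topologicalKrullDim X.left ≤ m → ∀ i : ℤ, m < i →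
    Summand (D.H X i i) (D.L.obj (D.H X (i - 2) (i - 2)))

end Pool.Agent.H71.AR
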