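import Pool.Agent.H71.AR.LefDefs
import Pool.Agent.H71.AR.Opn

/-!
# Galois representations of Hilbert newforms in the cohomology of schemes: definitions
-/

set_option autoImplicit false

open CategoryTheory CategoryTheory.Limits AlgebraicGeometry

namespace Pool.Agent.H71.AR

open Pool.Agent.Y116.UV Pool.Agent.Y101.Th Pool.Agent.Y691.TU

universe v u v' u'

/-- `ρ` is isomorphic to a subquotient of `V`. -/
def OccursIn {𝓡 : Type u'} [Category.{v'} 𝓡] (ρ V : 𝓡) : Prop :=
  ∃ (K : 𝓡) (i : K ⟶ V) (q : K ⟶ ρ), Mono i ∧ Epi q

/-- Data for a totally real number field `F` and a prime number `ℓ`: the Hilbert newforms `f` over `F`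
of parallel weight two with trivial central character, the functions
`Lambda f = Λ_f(s) = ∏_τ L(f^τ, s)`, the abelian varieties `B` over `F` and their `L`-functions, the
realization functor from the category `C` of pure motives over `ℚ` to the category `𝓡` of the `ℓ`-adic
representations of the Galois group of `F` with coefficients in an algebraic closure of `ℚ_ℓ`, the Tate
twist `V ↦ V(-1)` of representations, and the representations `rho f j = ρ_f(-j)`, where `ρ_f` is the
irreducible representation of dimension two which is attached to `f` (Carayol, Taylor,
Blasius-Rogawski; in the normalisation of the first cohomology of abelian varieties). -/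
structure HilbertData (F : Type) [Field F] (C : Type u) [Category.{v} C] (𝓡 : Type u')
    [Category.{v'} 𝓡] where
  /-- the Hilbert newforms -/
  Form : Type
  /-- the products of the `L`-functions of the conjugate newforms -/
  Lambda : Form → ℂ → ℂ
  /-- the abelian varieties over `F` -/
  AbVar : Type
  /-- the simple abelian varieties -/
  IsSimple : AbVar → Prop
  /-- the `L`-functions of the abelian varieties -/
  L : AbVar → ℂ → ℂ
  /-- the realization functor -/
  real : C ⥤ 𝓡
  /-- the Tate twist -/
  tate : 𝓡 ≌ 𝓡
  /-- the representations `ρ_f(-j)` -/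
  rho : Form → ℤ → 𝓡

variable {F : Type} [Field F] {C : Type u} [Category.{v} C] [Abelian C] {𝓡 : Type u'}
  [Category.{v'} 𝓡] [Abelian 𝓡]

/-- The question for the newform `f`: there is a simple abelian variety `A_f` over `F` with
`L(A_f, s) = Λ_f(s)`. -/
def Attached (T : HilbertData F C 𝓡) (f : T.Form) : Prop :=
  ∃ B : T.AbVar, T.IsSimple B ∧ T.L B = T.Lambda f

/-- Known properties of these data.

* `additive`, `tate`: the realization functor is additive and commutes with the Tate twists;
* `twist`, `simple`: `ρ_f(-(j+1))` is the Tate twist of `ρ_f(-j)`, and these representations are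
  irreducible;
* `faltings`: the abelian variety `A_f` exists if and only if `ρ_f` is a subquotient of `H^1(Y)`,
  restricted to the Galois group of `F`, for a smooth projective scheme `Y` over `ℚ` of dimension at
  most one. (By Faltings; if `ρ_f` occurs then it occurs in the Tate module of a simple abelian variety
  `B`; the centre of `End(B) ⊗ ℚ` is generated by the traces, hence it is `M_f`, and the endomorphism
  algebra is `M_f` since `F` has a real place.) -/
structure IsHilbert (D : Graded ℚ C) (T : HilbertData F C 𝓡) : Prop where
  additive : T.real.Additive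
  tate : ∀ A : C, Nonempty (T.real.obj (D.L.obj A) ≅ T.tate.functor.obj (T.real.obj A))
  twist : ∀ f j, Nonempty (T.rho f (j + 1) ≅ T.tate.functor.obj (T.rho f j))
  simple : ∀ f j, Simple (T.rho f j)
  faltings : ∀ f, Attached T f ↔ ∃ Y : Sch ℚ, SmProj Y ∧ topologicalKrullDim Y.left ≤ (1 : ℕ) ∧
    OccursIn (T.rho f 0) (T.real.obj (D.H Y 1 1))

end Pool.Agent.H71.AR
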