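import Pool.Agent.H71.AR.Wt
import Pool.Agent.H71.AR.Opn

/-!
# Rational K-groups of schemes and motives over finite fields: definitions
-/

set_option autoImplicit false

open CategoryTheory CategoryTheory.Limits AlgebraicGeometry

namespace Pool.Agent.H71.AR

open Pool.Agent.Y116.UV Pool.Agent.Y101.Th

universe v u

/-- A scheme over the field `F` of characteristic `p`, regarded as a scheme over the prime field. -/
noncomputable def toPrime (p : ℕ) [Fact p.Prime] (F : Type) [Field F] [CharP F p] (X : Sch F) :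
    Sch (ZMod p) :=
  (Over.map (Spec.map (CommRingCat.ofHom (ZMod.castHom (dvd_refl p) F)))).obj X

/-- Data: the rational `K`-groups `K m X = K_m(X) ⊗ ℚ` of schemes, their extension to functors on the
category `M` of Chow motives over the field with `p` elements, with rational coefficients, and the
rational `K`-groups with compact supports `Kc m X = K^c_m(X) ⊗ ℚ` of the schemes over this field. -/
structure KData (p : ℕ) [Fact p.Prime] (M : Type u) [Category.{v} M] [Preadditive M] where
  /-- the groups `K_m(X) ⊗ ℚ` -/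
  K : ℕ → Scheme.{0} → ModuleCat.{0} ℚ
  /-- the rational `K`-groups of Chow motives -/
  mot : ℕ → M ⥤ ModuleCat.{0} ℚ
  /-- the rational `K`-groups with compact supports -/
  Kc : ℕ → Sch (ZMod p) → ModuleCat.{0} ℚ
  [additive : ∀ m, (mot m).Additive]

attribute [instance] KData.additive

variable {p : ℕ} [Fact p.Prime] {M : Type u} [Category.{v} M] [Preadditive M]

/-- `K_m(X) ⊗ ℚ = 0` for all smooth projective schemes `X` of dimension at most `d` over all finite
fields of characteristic `p`. -/
def Torsion (T : KData p M) (m d : ℕ) : Prop :=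
  ∀ (F : Type) [Field F] [Finite F] [CharP F p] (X : Sch F), SmProj X →
    topologicalKrullDim X.left ≤ d → IsZero (T.K m X.left)

/-- Known properties of the rational `K`-groups.

* `restrict`: a smooth projective scheme over a finite field of characteristic `p` is smooth and
  projective over the prime field;
* `motive`: the `K`-groups of the motive `h(Y)` are those of `Y`;
* `iso`, `exact₁`, `exact₂`, `proj`: the groups `K^c_m(X)` of isomorphic schemes are isomorphic; for a
  closed subscheme `Z` of `X` with the complement `U` there is a long exact sequence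
  `K^c_(m+1)(Z) → K^c_m(U) → K^c_m(X) → K^c_m(Z)`; `K^c_m(Y) = K_m(Y)` for smooth projective `Y`;
* `weights`: if the groups `K_n(Y) ⊗ ℚ` are zero for all `n ≥ m` and all smooth projective schemes of
  dimension at most `d` then the groups `K^c_n(X) ⊗ ℚ` are zero for all `n ≥ m` and all schemes `X` of
  dimension at most `d` (by the weight spectral sequence of Gillet and Soulé, whose terms are the groups
  `K_(n+i)(W^i(X)) ⊗ ℚ`, `i ≥ 0`). -/
structure IsK (D : WeightData (ZMod p) M) (T : KData p M) : Prop where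
  restrict : ∀ (F : Type) [Field F] [Finite F] [CharP F p] (X : Sch F), SmProj X →
    SmProj (toPrime p F X)
  motive : ∀ (m : ℕ) (Y : Sch (ZMod p)), SmProj Y →
    Nonempty ((T.mot m).obj (D.h Y) ≅ T.K m Y.left)
  iso : ∀ (m : ℕ) {X Y : Sch (ZMod p)}, FT True X → Nonempty (X ≅ Y) →
    Nonempty (T.Kc m X ≅ T.Kc m Y)
  exact₁ : ∀ (m : ℕ) {Z X U : Sch (ZMod p)} (i : Z ⟶ X) (j : U ⟶ X), FT True X → IsTriple i j →
    ∃ (f : T.Kc m U ⟶ T.Kc m X) (g : T.Kc m X ⟶ T.Kc m Z) (w : f ≫ g = 0),
      (ShortComplex.mk f g w).Exact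
  exact₂ : ∀ (m : ℕ) {Z X U : Sch (ZMod p)} (i : Z ⟶ X) (j : U ⟶ X), FT True X → IsTriple i j →
    ∃ (f : T.Kc (m + 1) Z ⟶ T.Kc m U) (g : T.Kc m U ⟶ T.Kc m X) (w : f ≫ g = 0),
      (ShortComplex.mk f g w).Exact
  proj : ∀ (m : ℕ) (Y : Sch (ZMod p)), SmProj Y → Nonempty (T.Kc m Y ≅ T.K m Y.left)
  weights : ∀ m d : ℕ, (∀ n : ℕ, m ≤ n → ∀ Y : Sch (ZMod p), SmProj Y →
      topologicalKrullDim Y.left ≤ d → IsZero (T.K n Y.left)) →
    ∀ n : ℕ, m ≤ n → ∀ X : Sch (ZMod p), FT True X → topologicalKrullDim X.left ≤ d →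
      IsZero (T.Kc n X)

end Pool.Agent.H71.AR
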