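import Pool.Agent.H71.AR.Conf

set_option autoImplicit false

/-!
# Arrangements of pairwise distinct lines

Repeated lines of an arrangement are removed.
-/

open CategoryTheory AlgebraicGeometry MvPolynomial Pool.Agent.Y116.UV Pool.Agent.W5h77.MR

namespace Pool.Agent.H71.AR

/-- Triples of labels. -/
abbrev Tr (α β : Type) : Type := Lin α β × Lin α β × Lin α β

section pull

variable {α β α' β' : Type} (πa : α → Bool ⊕ α') (πb : β → Option β')

/-- the map of the labels -/
def lmap : Lin α β → Lin α' β'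
  | Sum.inl k => Sum.inl k
  | Sum.inr (Sum.inl i) =>
    (πa i).elim (fun t => if t then Sum.inl 3 else Sum.inl 0) fun i' => Sum.inr (Sum.inl i')
  | Sum.inr (Sum.inr j) => (πb j).elim (Sum.inl 1) fun j' => Sum.inr (Sum.inr j')

/-- the map of the coefficients -/
def pull {C : Type} [CommRing C] (d : Coe α' β' → C) : Coe α β → C
  | Sum.inl (Sum.inl i) => (πa i).elim (fun t => if t then 1 else 0) fun i' => d (Sum.inl (Sum.inl i'))
  | Sum.inl (Sum.inr i) => (πa i).elim (fun t => if t then 1 else 0) fun i' => d (Sum.inl (Sum.inr i'))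
  | Sum.inr j => (πb j).elim 0 fun j' => d (Sum.inr j')

lemma line_pull {C : Type} [CommRing C] (d : Coe α' β' → C) (p : Lin α β) :
    line (pull πa πb d) p = line d (lmap πa πb p) := by
  rcases p with k | i | j
  · rfl
  · rcases h : πa i with (_ | _) | i'
    · simp [line, pull, lmap, h]
    · simp [line, pull, lmap, h]
    · simp [line, pull, lmap, h]
  · rcases h : πb j with _ | j'
    · simp [line, pull, lmap, h]
    · simp [line, pull, lmap, h]

lemma ldet_pull {C : Type} [CommRing C] (d : Coe α' β' → C) (t : Tr α β) :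
    ldet (pull πa πb d) t = ldet d (lmap πa πb t.1, lmap πa πb t.2.1, lmap πa πb t.2.2) := by
  simp only [ldet, line_pull]

lemma pull_hom {C D : Type} [CommRing C] [CommRing D] (f : C →+* D) (d : Coe α' β' → C)
    (v : Coe α β) : f (pull πa πb d v) = pull πa πb (fun v => f (d v)) v := by
  rcases v with (i | i) | j
  · rcases h : πa i with (_ | _) | i' <;> simp [pull, h]
  · rcases h : πa i with (_ | _) | i' <;> simp [pull, h]
  · rcases h : πb j with _ | j' <;> simp [pull, h]

/-- Removing the repeated lines. -/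
theorem rep_pull {R B : Type} [CommRing R] [CommRing B] [Algebra R B] (c' : Coe α' β' → B)
    (hsa : ∀ i', ∃ i, πa i = Sum.inr i') (hsb : ∀ j', ∃ j, πb j = some j')
    (alg : Algebra (MvPolynomial (Coe α β) R) B)
    (hT : IsScalarTower R (MvPolynomial (Coe α β) R) B)
    (hc : ∀ v, algebraMap (MvPolynomial (Coe α β) R) B (X v) = pull πa πb c' v)
    {E : Set (Tr α β)} (h : Rep (lgen R α β) E ∅ B) :
    @Rep _ _ _ (lgen R α' β') {t | ldet c' t = 0} ∅ B _ (aeval (R := R) c').toRingHom.toAlgebra := by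
  let φ : MvPolynomial (Coe α' β') R →ₐ[R] B := aeval c'
  letI alg' : Algebra (MvPolynomial (Coe α' β') R) B := φ.toRingHom.toAlgebra
  have hφ : algebraMap (MvPolynomial (Coe α' β') R) B = φ.toRingHom := rfl
  have hX : ∀ v, φ.toRingHom (X v) = c' v := fun v => aeval_X _ v
  have hC : ∀ r, φ.toRingHom (C r) = algebraMap R B r := fun r => φ.commutes r
  have hC' : ∀ r, algebraMap (MvPolynomial (Coe α β) R) B (C r) = algebraMap R B r := fun r =>
    (IsScalarTower.algebraMap_apply R (MvPolynomial (Coe α β) R) B r).symm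
  have hdet : ∀ t', algebraMap (MvPolynomial (Coe α' β') R) B (lgen R α' β' t') = ldet c' t' := by
    intro t'
    rw [hφ, lgen, ldet_map]
    simp only [hX]
  refine ⟨?_, ?_, ?_, ?_⟩
  · intro t' ht'
    rw [hdet]
    exact ht'
  · intro t ht
    exact ht.elim
  · intro D _ f g hfg
    have hR : ∀ r, f (algebraMap R B r) = g (algebraMap R B r) := by
      intro r
      have h1 := RingHom.congr_fun hfg (C r)
      rw [RingHom.comp_apply, RingHom.comp_apply, hφ, hC] at h1
      exact h1
    have hV : ∀ v, f (c' v) = g (c' v) := by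
      intro v
      have h1 := RingHom.congr_fun hfg (X v)
      rw [RingHom.comp_apply, RingHom.comp_apply, hφ, hX] at h1
      exact h1
    refine h.ext D f g (MvPolynomial.ringHom_ext (fun r => ?_) fun v => ?_)
    · rw [RingHom.comp_apply, RingHom.comp_apply, hC', hR]
    · rw [RingHom.comp_apply, RingHom.comp_apply, hc, pull_hom, pull_hom]
      simp only [hV]
  · intro D _ f hf _
    let d' : Coe α' β' → D := fun v => f (X v)
    let F : MvPolynomial (Coe α β) R →+* D := eval₂Hom (f.comp C) (pull πa πb d')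
    have hFX : ∀ v, F (X v) = pull πa πb d' v := fun v => eval₂Hom_X' _ _ _
    have hFC : ∀ r, F (C r) = f (C r) := fun r => eval₂Hom_C _ _ _
    have hE : ∀ t ∈ E, F (lgen R α β t) = 0 := by
      intro t ht
      rw [lgen, ldet_map]
      simp only [hFX]
      rw [ldet_pull]
      have h1 : ldet c' (lmap πa πb t.1, lmap πa πb t.2.1, lmap πa πb t.2.2) = 0 := by
        rw [← ldet_pull]
        have h2 := h.zero t ht
        rw [lgen, ldet_map] at h2
        simp only [hc] at h2
        exact h2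
      have h3 := hf _ h1
      rw [lgen, ldet_map] at h3
      exact h3
    obtain ⟨g, hg⟩ := h.lift D F hE (fun t ht => ht.elim)
    refine ⟨g, MvPolynomial.ringHom_ext (fun r => ?_) fun v => ?_⟩
    · rw [RingHom.comp_apply, hφ, hC, ← hC', ← RingHom.comp_apply, hg, hFC]
    · rw [RingHom.comp_apply, hφ, hX]
      have key : ∀ v : Coe α β, g (pull πa πb c' v) = pull πa πb d' v := by
        intro v
        rw [← hc, ← RingHom.comp_apply, hg, hFX]
      rcases v with (i' | i') | j'
      · obtain ⟨i, hi⟩ := hsa i'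
        have h4 := key (Sum.inl (Sum.inl i))
        simp only [pull, hi, Sum.elim_inr] at h4
        exact h4
      · obtain ⟨i, hi⟩ := hsa i'
        have h4 := key (Sum.inl (Sum.inr i))
        simp only [pull, hi, Sum.elim_inr] at h4
        exact h4
      · obtain ⟨j, hj⟩ := hsb j'
        have h4 := key (Sum.inr j)
        simp only [pull, hj, Option.elim_some] at h4
        exact h4

end pull

/-- The coefficients of a family of lines come from a family of pairwise distinct lines. -/
lemma exists_pull {B α β : Type} [CommRing B] [Finite α] [Finite β] (c : Coe α β → B) :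
    ∃ (a b : ℕ) (πa : α → Bool ⊕ Fin a) (πb : β → Option (Fin b)) (c' : Coe (Fin a) (Fin b) → B),
      (∀ i', ∃ i, πa i = Sum.inr i') ∧ (∀ j', ∃ j, πb j = some j') ∧
      (∀ v, c v = pull πa πb c' v) ∧
      (∀ i i', c' (Sum.inl (Sum.inl i)) = c' (Sum.inl (Sum.inl i')) →
        c' (Sum.inl (Sum.inr i)) = c' (Sum.inl (Sum.inr i')) → i = i') ∧
      (∀ i, c' (Sum.inl (Sum.inl i)) = 0 → c' (Sum.inl (Sum.inr i)) ≠ 0) ∧
      (∀ i, c' (Sum.inl (Sum.inl i)) = 1 → c' (Sum.inl (Sum.inr i)) ≠ 1) ∧
      (∀ j j', c' (Sum.inr j) = c' (Sum.inr j') → j = j') ∧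
      ∀ j, c' (Sum.inr j) ≠ 0 := by
  classical
  have := Fintype.ofFinite α
  have := Fintype.ofFinite β
  let q : α → B × B := fun i => (c (Sum.inl (Sum.inl i)), c (Sum.inl (Sum.inr i)))
  let PA : Finset (B × B) := (Finset.univ.image q) \ {(0, 0), (1, 1)}
  let PB : Finset B := (Finset.univ.image fun j => c (Sum.inr j)) \ {0}
  have hPA : ∀ i, q i ≠ (0, 0) → q i ≠ (1, 1) → q i ∈ PA := by
    intro i h0 h1
    simp only [PA, Finset.mem_sdiff, Finset.mem_image, Finset.mem_univ, true_and, Finset.mem_insert,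
      Finset.mem_singleton]
    exact ⟨⟨i, rfl⟩, fun h => h.elim h0 h1⟩
  have hPB : ∀ j, c (Sum.inr j) ≠ 0 → c (Sum.inr j) ∈ PB := by
    intro j h0
    simp only [PB, Finset.mem_sdiff, Finset.mem_image, Finset.mem_univ, true_and,
      Finset.mem_singleton]
    exact ⟨⟨j, rfl⟩, h0⟩
  let eA := PA.equivFin
  let eB := PB.equivFin
  let πa : α → Bool ⊕ Fin PA.card := fun i =>
    if h0 : q i = (0, 0) then Sum.inl false else
      if h1 : q i = (1, 1) then Sum.inl true else Sum.inr (eA ⟨q i, hPA i h0 h1⟩)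
  let πb : β → Option (Fin PB.card) := fun j =>
    if h0 : c (Sum.inr j) = 0 then none else some (eB ⟨c (Sum.inr j), hPB j h0⟩)
  let c' : Coe (Fin PA.card) (Fin PB.card) → B := Sum.elim
    (Sum.elim (fun i => (eA.symm i).1.1) (fun i => (eA.symm i).1.2)) fun j => (eB.symm j).1
  have hA : ∀ i', (eA.symm i').1 ≠ (0, 0) ∧ (eA.symm i').1 ≠ (1, 1) ∧
      ∃ i, q i = (eA.symm i').1 := by
    intro i'
    have h := (eA.symm i').2
    simp only [PA, Finset.mem_sdiff, Finset.mem_image, Finset.mem_univ, true_and, Finset.mem_insert,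
      Finset.mem_singleton, not_or] at h
    exact ⟨h.2.1, h.2.2, h.1⟩
  have hB : ∀ j', (eB.symm j').1 ≠ 0 ∧ ∃ j, c (Sum.inr j) = (eB.symm j').1 := by
    intro j'
    have h := (eB.symm j').2
    simp only [PB, Finset.mem_sdiff, Finset.mem_image, Finset.mem_univ, true_and,
      Finset.mem_singleton] at h
    exact ⟨h.2, h.1⟩
  refine ⟨PA.card, PB.card, πa, πb, c', ?_, ?_, ?_, ?_, ?_, ?_, ?_, ?_⟩
  · intro i'
    obtain ⟨h0, h1, i, hi⟩ := hA i'
    refine ⟨i, ?_⟩
    have h0' : q i ≠ (0, 0) := hi ▸ h0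
    have h1' : q i ≠ (1, 1) := hi ▸ h1
    simp only [πa, dif_neg h0', dif_neg h1']
    congr 1
    rw [← Equiv.eq_symm_apply]
    exact Subtype.ext hi
  · intro j'
    obtain ⟨h0, j, hj⟩ := hB j'
    refine ⟨j, ?_⟩
    have h0' : c (Sum.inr j) ≠ 0 := hj ▸ h0
    simp only [πb, dif_neg h0']
    congr 1
    rw [← Equiv.eq_symm_apply]
    exact Subtype.ext hj
  · rintro ((i | i) | j)
    · by_cases h0 : q i = (0, 0)
      · simp only [pull, πa, dif_pos h0]
        exact congrArg Prod.fst h0
      by_cases h1 : q i = (1, 1)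
      · simp only [pull, πa, dif_neg h0, dif_pos h1]
        exact congrArg Prod.fst h1
      simp only [pull, πa, dif_neg h0, dif_neg h1, Sum.elim_inr, c', Sum.elim_inl]
      rw [Equiv.symm_apply_apply]
    · by_cases h0 : q i = (0, 0)
      · simp only [pull, πa, dif_pos h0]
        exact congrArg Prod.snd h0
      by_cases h1 : q i = (1, 1)
      · simp only [pull, πa, dif_neg h0, dif_pos h1]
        exact congrArg Prod.snd h1
      simp only [pull, πa, dif_neg h0, dif_neg h1, Sum.elim_inr, c', Sum.elim_inl]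
      rw [Equiv.symm_apply_apply]
    · by_cases h0 : c (Sum.inr j) = 0
      · simp only [pull, πb, dif_pos h0]
        exact h0
      simp only [pull, πb, dif_neg h0, c', Option.elim_some, Sum.elim_inr]
      rw [Equiv.symm_apply_apply]
  · intro i i' h1 h2
    exact eA.symm.injective (Subtype.ext (Prod.ext h1 h2))
  · intro i h1 h2
    exact (hA i).1 (Prod.ext h1 h2)
  · intro i h1 h2
    exact (hA i).2.1 (Prod.ext h1 h2)
  · intro j j' h
    exact eB.symm.injective (Subtype.ext h)
  · intro j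
    exact (hB j).1

/-- Normalised vectors. -/
def Nrm {C : Type} [CommRing C] (u : Fin 3 → C) : Prop :=
  (∃ x y, u = ![1, x, y]) ∨ (∃ z, u = ![0, 1, z]) ∨ u = ![0, 0, 1]

lemma nrm_line {C α β : Type} [CommRing C] (c : Coe α β → C) (p : Lin α β) : Nrm (line c p) := by
  rcases p with k | i | j
  · fin_cases k
    · exact Or.inl ⟨0, 0, rfl⟩
    · exact Or.inr (Or.inl ⟨0, rfl⟩)
    · exact Or.inr (Or.inr rfl)
    · exact Or.inl ⟨1, 1, rfl⟩
  · exact Or.inl ⟨_, _, rfl⟩
  · exact Or.inr (Or.inl ⟨_, rfl⟩)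

lemma nrm_eq {C : Type} [CommRing C] [Nontrivial C] {u v : Fin 3 → C} (hu : Nrm u) (hv : Nrm v)
    (h : ∀ k : Fin 3, Matrix.det (Matrix.of ![u, v, ![![1, 0, 0], ![0, 1, 0], ![0, 0, 1]] k]) = 0) :
    u = v := by
  have h0 := h 0
  have h1 := h 1
  have h2 := h 2
  rcases hu with ⟨x, y, rfl⟩ | ⟨z, rfl⟩ | rfl <;> rcases hv with ⟨x', y', rfl⟩ | ⟨z', rfl⟩ | rfl <;>
    simp [Matrix.det_fin_three] at h0 h1 h2 ⊢
  · constructor
    · linear_combination -h2
    · linear_combination h1
  · linear_combination -h0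

end Pool.Agent.H71.AR
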