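import Pool.Agent.H71.AR.RegDefs
import Pool.Agent.H71.AR.Wt

/-!
# Density of the regulator and line arrangements
-/

set_option autoImplicit false

open CategoryTheory CategoryTheory.Limits AlgebraicGeometry

namespace Pool.Agent.H71.AR

open Pool.Agent.Y116.UV Pool.Agent.Y101.Th Pool.Agent.Z125.UN Pool.Agent.Y691.TU

universe v u v' u'

lemma isZero_sepQ (V : TopModuleCat.{0} ℤ) :
    IsZero (sepQ.obj V) ↔ closure ({0} : Set V) = Set.univ := by
  change IsZero (ModuleCat.of ℤ (V ⧸ clo V)) ↔ _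
  rw [ModuleCat.isZero_iff_subsingleton]
  change Subsingleton (V ⧸ clo V) ↔ _
  rw [Submodule.Quotient.subsingleton_iff, ← SetLike.coe_set_eq]
  rfl

lemma isZero_sepQ_coker {M N : TopModuleCat.{0} ℤ} (φ : M ⟶ N) :
    IsZero (sepQ.obj (TopModuleCat.coker φ)) ↔ DenseRange (ConcreteCategory.hom φ) := by
  rw [isZero_sepQ, DenseRange, dense_iff_closure_eq]
  have h1 := (Submodule.isOpenQuotientMap_mkQ φ.hom.range)
  have h2 : (Submodule.mkQ φ.hom.range) ⁻¹' closure ({0} : Set (N ⧸ φ.hom.range)) =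
      closure (Set.range (ConcreteCategory.hom φ)) := by
    rw [h1.isOpenMap.preimage_closure_eq_closure_preimage h1.continuous]
    congr 1
    ext x
    simp only [Set.mem_preimage, Set.mem_singleton_iff, Submodule.mkQ_apply,
      Submodule.Quotient.mk_eq_zero]
    rfl
  rw [← h2]
  constructor
  · intro h
    change closure ({0} : Set (N ⧸ φ.hom.range)) = Set.univ at h
    rw [h, Set.preimage_univ]
  · intro h
    change closure ({0} : Set (N ⧸ φ.hom.range)) = Set.univ
    rw [← Set.image_preimage_eq (closure ({0} : Set (N ⧸ φ.hom.range))) h1.surjective, h,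
      Set.image_univ, h1.surjective.range_eq]

variable {𝓒 : Type u} [Category.{v} 𝓒] [Preadditive 𝓒] {T : RegData.{v, u} 𝓒}

lemma isZero_regQuot (i j : ℤ) (A : 𝓒) : IsZero ((RegQuot T i j).obj A) ↔ DenseReg T i j A := by
  have e : (cokernel (T.r i j)).obj A ≅ TopModuleCat.coker ((T.r i j).app A) :=
    PreservesCokernel.iso ((evaluation 𝓒 (TopModuleCat.{0} ℤ)).obj A) (T.r i j) ≪≫
      (colimit.isColimit _).coconePointUniqueUpToIso (TopModuleCat.isColimitCoker _)
  rw [DenseReg, ← isZero_sepQ_coker]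
  exact (sepQ.mapIso e).isZero_iff

instance : sepQ.Additive where
  map_add {V V' f g} := by
    ext x
    obtain ⟨y, rfl⟩ := Submodule.mkQ_surjective _ x
    rfl

instance regQuot_additive (i j : ℤ) : (RegQuot T i j).Additive := by
  have h : (cokernel (T.r i j)).Additive := {
    map_add := fun {X Y f g} => by
      rw [← cancel_epi ((cokernel.π (T.r i j)).app X), Preadditive.comp_add,
        ← NatTrans.naturality, ← NatTrans.naturality, ← NatTrans.naturality, (T.H i j).map_add,
        Preadditive.add_comp] }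
  unfold RegQuot
  infer_instance

variable {M : Type u'} [Category.{v'} M] [Preadditive M] [HasZeroObject M] [HasBinaryBiproducts M]
  {D : WeightData ℚ M} {b : M ⥤ 𝓒} [b.Additive]

omit [Preadditive 𝓒] in
lemma overNumberField_baseC (Y : Sch ℚ) : OverNumberField (baseC Y) :=
  ⟨ℚ, inferInstance, inferInstance, algebraMap ℚ ℂ, Y, ⟨Iso.refl _⟩⟩

/-- **Density of the regulator and line arrangements.** -/
theorem reg_dim (hD : IsWeight D) (hb : IsBaseCT D T b) (i j : ℤ) (d : ℕ) :
    (∀ X : Sch ℂ, SmProj X → OverNumberField X → topologicalKrullDim X.left ≤ d →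
      DenseReg T i j (T.h X)) ↔
    ∀ (N : Type) [CommRing N] [IsDomain N] [Algebra ℚ N] [Algebra.Smooth ℚ N], ArrAlg ℚ N →
      ringKrullDim N ≤ d → ∀ n : ℤ, IsZero (wtH D (b ⋙ RegQuot T i j) n (aff ℚ N)) := by
  rw [← wt_dim hD (b ⋙ RegQuot T i j) isFrac_rat d]
  have key : ∀ Y : Sch ℚ, SmProj Y →
      (IsZero ((b ⋙ RegQuot T i j).obj (D.h Y)) ↔ DenseReg T i j (T.h (baseC Y))) := by
    intro Y hY
    obtain ⟨e⟩ := hb.iso Y hY
    rw [← isZero_regQuot]
    exact ((RegQuot T i j).mapIso e).isZero_iff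
  constructor
  · intro h Y hY hd
    rw [key Y hY]
    exact h _ (hb.smProj Y hY) (overNumberField_baseC Y) (by rw [hb.dim Y hY]; exact hd)
  · intro h X hX hX' hd
    obtain ⟨Y, hY, hd', s, r, hsr⟩ := hb.descend X hX hX'
    have h1 := h Y hY (by rw [hd']; exact hd)
    rw [key Y hY, ← isZero_regQuot] at h1
    rw [← isZero_regQuot, IsZero.iff_id_eq_zero, ← (RegQuot T i j).map_id, ← hsr,
      (RegQuot T i j).map_comp, h1.eq_zero_of_tgt ((RegQuot T i j).map s), zero_comp]

end Pool.Agent.H71.AR
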