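import Pool.Agent.H71.AR.AHArr
import Pool.Agent.H71.AR.Opn

/-!
# Regulators with values in topological groups, on complex Chow motives: definitions
-/

set_option autoImplicit false

open CategoryTheory CategoryTheory.Limits AlgebraicGeometry

namespace Pool.Agent.H71.AR

open Pool.Agent.Y116.UV Pool.Agent.Y101.Th

universe v u v' u'

/-- The closure of zero in a topological abelian group. -/
noncomputable def clo (V : TopModuleCat.{0} ℤ) : Submodule ℤ V := (⊥ : Submodule ℤ V).topologicalClosure

lemma clo_le {V V' : TopModuleCat.{0} ℤ} (f : V ⟶ V') :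
    clo V ≤ (clo V').comap f.hom.toLinearMap := by
  intro x hx
  change x ∈ closure ({0} : Set V) at hx
  change f.hom x ∈ closure ({0} : Set V')
  have h : Set.MapsTo f.hom ({0} : Set V) {0} := by
    intro y hy
    rw [Set.mem_singleton_iff] at hy ⊢
    rw [hy, map_zero]
  exact h.closure f.hom.cont hx

/-- The Hausdorff quotient `V ↦ V / closure(0)` of a topological abelian group, as an abelian group. -/
noncomputable def sepQ : TopModuleCat.{0} ℤ ⥤ ModuleCat.{0} ℤ where
  obj V := ModuleCat.of ℤ (V ⧸ clo V)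
  map f := ModuleCat.ofHom ((clo _).mapQ (clo _) f.hom.toLinearMap (clo_le f))
  map_id V := by
    ext x
    obtain ⟨y, rfl⟩ := Submodule.mkQ_surjective _ x
    rfl
  map_comp f g := by
    ext x
    obtain ⟨y, rfl⟩ := Submodule.mkQ_surjective _ x
    rfl

/-- Data on the category `𝓒` of complex Chow motives with rational coefficients: the motives `h(X)`, the
motivic cohomology groups `M i j A = H^i_𝓜(A, ℚ(j))` with the discrete topology, the absolute Hodge
cohomology groups `H i j A = H^i_𝓗(A, ℚ(j))` with their topology, and the regulators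
`r i j : H^i_𝓜(A, ℚ(j)) ⟶ H^i_𝓗(A, ℚ(j))`. -/
structure RegData (𝓒 : Type u) [Category.{v} 𝓒] [Preadditive 𝓒] where
  /-- the motive of a smooth projective scheme -/
  h : Sch ℂ → 𝓒
  /-- motivic cohomology -/
  M : ℤ → ℤ → 𝓒 ⥤ TopModuleCat.{0} ℤ
  /-- absolute Hodge cohomology -/
  H : ℤ → ℤ → 𝓒 ⥤ TopModuleCat.{0} ℤ
  /-- the regulator -/
  r : ∀ i j, M i j ⟶ H i j
  [additive : ∀ i j, (H i j).Additive]

attribute [instance] RegData.additive

variable {𝓒 : Type u} [Category.{v} 𝓒] [Preadditive 𝓒]

/-- The regulator of the motive `A` has dense image. -/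
def DenseReg (T : RegData.{v, u} 𝓒) (i j : ℤ) (A : 𝓒) : Prop :=
  DenseRange (ConcreteCategory.hom ((T.r i j).app A))

/-- The quotient of `H^i_𝓗(A, ℚ(j))` by the closure of the image of the regulator: the Hausdorff quotient
of the cokernel of the regulator. -/
noncomputable def RegQuot (T : RegData.{v, u} 𝓒) (i j : ℤ) : 𝓒 ⥤ ModuleCat.{0} ℤ :=
  cokernel (T.r i j) ⋙ sepQ

/-- The complex scheme `X` can be defined over a number field. -/
def OverNumberField (X : Sch ℂ) : Prop :=
  ∃ (K : Type) (_ : Field K) (_ : NumberField K) (σ : K →+* ℂ) (X₀ : Sch K),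
    Nonempty (X ≅ (Over.pullback (Spec.map (CommRingCat.ofHom σ))).obj X₀)

/-- Known properties of the base change functor `b` from the Chow motives over `ℚ` to the complex Chow
motives: if `Y` is smooth and projective over `ℚ` then `Y_ℂ` is smooth and projective over `ℂ`, of the
same dimension, and `b(h(Y))` is isomorphic to `h(Y_ℂ)`; if `X` is smooth and projective over `ℂ` and can
be defined over a number field, `X = X₀ ×_K ℂ`, then `h(X)` is a direct summand of `h(Y_ℂ)` for the
scheme `Y = X₀`, regarded as a scheme over `ℚ`, of the same dimension. -/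
structure IsBaseCT {M : Type u'} [Category.{v'} M] [Preadditive M] (D : WeightData ℚ M)
    (T : RegData.{v, u} 𝓒) (b : M ⥤ 𝓒) : Prop where
  smProj : ∀ Y : Sch ℚ, SmProj Y → SmProj (baseC Y)
  dim : ∀ Y : Sch ℚ, SmProj Y → topologicalKrullDim (baseC Y).left = topologicalKrullDim Y.left
  iso : ∀ Y : Sch ℚ, SmProj Y → Nonempty (b.obj (D.h Y) ≅ T.h (baseC Y))
  descend : ∀ X : Sch ℂ, SmProj X → OverNumberField X → ∃ Y : Sch ℚ, SmProj Y ∧
    topologicalKrullDim Y.left = topologicalKrullDim X.left ∧
      ∃ (s : T.h X ⟶ T.h (baseC Y)) (r : T.h (baseC Y) ⟶ T.h X), s ≫ r = 𝟙 _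

end Pool.Agent.H71.AR
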